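import Pool.Agent.Helper33.Perc.Pot

set_option autoImplicit false

/-!
A near optimal block placed in free space raises the potential by almost its own value.
-/

namespace Pool.Agent.Helper33.Perc

open scoped Classical

noncomputable section

variable {V : Type}

theorem exists_thin_shell (f : ℕ → ℕ) (hf : ∀ i, f i ≤ f (i + 1)) (r : ℕ) (hr : 0 < r) :
    ∃ i < r, (f (i + 1) - f i) * r ≤ f r := by
  by_contra hcon
  push Not at hcon
  have h1 : ∀ k ≤ r, k * f r ≤ (f k - f 0) * r := by
    intro k hk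
    induction k with
    | zero => simp
    | succ k ih =>
      have h2 := ih (by omega)
      have h3 := hcon k (by omega)
      have h4 : f 0 ≤ f k := by
        have : Monotone f := monotone_nat_of_le_succ hf
        exact this (Nat.zero_le k)
      have h5 : f (k + 1) - f 0 = (f k - f 0) + (f (k + 1) - f k) := by
        have := hf k
        omega
      rw [h5, add_mul, add_mul, one_mul]
      omega
  have h2 := h1 r le_rfl
  have h3 := hcon 0 hr
  -- r * f r ≤ (f r - f 0) * r hence f 0 = 0 or f r = 0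
  have hfr : 0 < f r ∨ f r = 0 := by omega
  rcases hfr with hfr | hfr
  · -- strictness at some step
    have h6 : ∀ k, 0 < k → k ≤ r → k * f r < (f k - f 0) * r := by
      intro k hk0 hk
      obtain ⟨j, rfl⟩ : ∃ j, k = j + 1 := ⟨k - 1, by omega⟩
      have h7 := h1 j (by omega)
      have h8 := hcon j (by omega)
      have h4 : f 0 ≤ f j := by
        have : Monotone f := monotone_nat_of_le_succ hf
        exact this (Nat.zero_le j)
      have h5 : f (j + 1) - f 0 = (f j - f 0) + (f (j + 1) - f j) := by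
        have := hf j
        omega
      rw [h5, add_mul, add_mul, one_mul]
      omega
    have h9 := h6 r hr le_rfl
    have h10 : (f r - f 0) * r ≤ f r * r := Nat.mul_le_mul_right _ (Nat.sub_le _ _)
    rw [mul_comm (f r) r] at h10
    omega
  · have : Monotone f := monotone_nat_of_le_succ hf
    have h7 := this (show 0 + 1 ≤ r by omega)
    simp only [zero_add] at h7 h3
    rw [hfr] at h3 h7
    have : f 1 - f 0 = 0 := by omega
    rw [this] at h3
    simp at h3

theorem block_gain (D : Dat V) (v₀ : V) (η₁ η₂ : ℝ) (hη20 : 0 ≤ η₂) (h12 : η₂ ≤ η₁)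
    (hη1 : η₁ < D.h) {M B : Finset (Sym2 V)} {W₁ : Finset V} (hW₁ : Adm v₀ M W₁)
    (hmin : ∀ W', Adm v₀ M W' → gg D η₁ B W₁ ≤ gg D η₁ B W')
    (Mb : Finset (Sym2 V)) (c : ℕ) (hc : ∀ W, Adm v₀ Mb W → c ≤ (bd D.hlf W).card)
    (φ : D.G ≃g D.G) (r : ℕ) (hr : 0 < r)
    (hfree : ∀ y ∈ nhk D.hlf r (insert v₀ (ends Mb)), φ y ∉ ends M ∪ ends B ∪ W₁ ∪ {v₀})
    (X : Finset (Sym2 V)) (hX : Mb.image (Sym2.map φ) ⊆ X)
    (K : ℝ) {W' : Finset V} (hW' : Adm v₀ (M ∪ X) W') (hφW : φ v₀ ∈ W') :
    Psi D v₀ η₂ M B + min ((η₁ - η₂) * K) ((1 - η₂ / D.h) * c - 2 * D.d * (K / r)) ≤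
      gg D η₂ B W' := by
  have hη2 : η₂ < D.h := lt_of_le_of_lt h12 hη1
  have hpos := D.hpos
  set S0 := insert v₀ (ends Mb) with hS0
  set T : ℕ → Finset V := fun i => nhk D.hlf i (S0.image φ) with hT
  have hTmono : Monotone T := nhk_mono D.hlf _
  have hTfree : ∀ i ≤ r, ∀ z ∈ T i, z ∉ ends M ∧ z ∉ ends B ∧ z ∉ W₁ ∧ z ≠ v₀ := by
    intro i hi z hz
    have hz' := hTmono hi hz
    simp only [hT] at hz'
    rw [nhk_image, Finset.mem_image] at hz'
    obtain ⟨y, hy, rfl⟩ := hz'
    have := hfree y hy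
    simp only [Finset.mem_union, Finset.mem_singleton] at this
    push Not at this
    exact ⟨this.1.1.1, this.1.1.2, this.1.2, this.2⟩
  have hWM : Adm v₀ M W' := hW'.mono Finset.subset_union_left
  have htp := two_param D v₀ η₁ η₂ hη20 hη2 hW₁ hmin hWM
  have hsub : W' ∩ T r ⊆ W' \ W₁ := by
    intro z hz
    rw [Finset.mem_inter] at hz
    rw [Finset.mem_sdiff]
    exact ⟨hz.1, (hTfree r le_rfl z hz.2).2.2.1⟩
  have hcard := Finset.card_le_card hsub
  rcases le_or_gt K ((W' ∩ T r).card : ℝ) with hKc | hKc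
  · have h1 : K ≤ ((W' \ W₁).card : ℝ) := hKc.trans (by exact_mod_cast hcard)
    have h2 : min ((η₁ - η₂) * K) ((1 - η₂ / D.h) * c - 2 * D.d * (K / r)) ≤
        (η₁ - η₂) * K := min_le_left _ _
    have h3 : (η₁ - η₂) * K ≤ (η₁ - η₂) * (W' \ W₁).card :=
      mul_le_mul_of_nonneg_left h1 (by linarith)
    linarith
  · -- thin shell
    obtain ⟨i, hi, hthin⟩ := exists_thin_shell (fun i => (W' ∩ T i).card)
      (fun i => Finset.card_le_card (Finset.inter_subset_inter_left (hTmono (Nat.le_succ i))))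
      r hr
    set U := W' ∩ T i with hU
    set Wo := W' \ T i with hWo
    have hsplit : W' = Wo ∪ U := by
      ext z
      rw [hWo, hU, Finset.mem_union, Finset.mem_sdiff, Finset.mem_inter]
      tauto
    have hdisj : Disjoint U Wo := by
      rw [hU, hWo]
      exact Finset.disjoint_left.2 fun z hz hz' => by
        rw [Finset.mem_inter] at hz
        rw [Finset.mem_sdiff] at hz'
        exact hz'.2 hz.2
    have hcs := cw_split D.hlf B U Wo hdisj
    rw [← hsplit] at hcs
    -- crossing edges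
    have heb : (eb D.hlf U Wo).card ≤ D.d * ((W' ∩ T (i + 1)).card - (W' ∩ T i).card) := by
      refine (card_eb_le D.hlf D.d D.hd U Wo ((W' ∩ T (i + 1)) \ (W' ∩ T i)) ?_).trans ?_
      · intro a ha b hb hab
        rw [hU, Finset.mem_inter] at ha
        rw [hWo, Finset.mem_sdiff] at hb
        rw [Finset.mem_sdiff, Finset.mem_inter, Finset.mem_inter]
        exact ⟨⟨hb.1, adj_mem_nhk D.hlf ha.2 hab⟩, fun h => hb.2 h.2⟩
      · rw [Finset.card_sdiff_of_subset
          (Finset.inter_subset_inter_left (hTmono (Nat.le_succ i)))]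
    -- outer part admissible
    have hWoA : Adm v₀ M Wo := by
      refine ⟨?_, ?_⟩
      · rw [hWo, Finset.mem_sdiff]
        exact ⟨hW'.1, fun h => (hTfree i hi.le v₀ h).2.2.2 rfl⟩
      · intro a ha b hb
        rw [hWo, Finset.mem_sdiff] at ha ⊢
        refine ⟨hW'.2 a ha.1 b (Finset.mem_union_left _ hb), fun h => ?_⟩
        exact (hTfree i hi.le b h).1 (right_mem_ends hb)
    have hWoP := psi_le D v₀ η₂ hη20 hη2 (B := B) hWoA
    -- no Breaker edge at U
    have hUcw : cw D.hlf B U = (bd D.hlf U).card := by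
      unfold cw
      rw [Finset.sdiff_eq_self_of_disjoint]
      rw [Finset.disjoint_left]
      intro e he heB
      rw [mem_bd] at he
      obtain ⟨a, ha, b, _, _, rfl⟩ := he
      rw [hU, Finset.mem_inter] at ha
      exact (hTfree i hi.le a ha.2).2.1 (left_mem_ends heB)
    -- value of the block
    have hUc : c ≤ (bd D.hlf U).card := by
      have h1 : (U.image φ.symm).image φ = U := by
        rw [Finset.image_image]
        have : (φ ∘ φ.symm : V → V) = id := by funext z; simp
        rw [this, Finset.image_id]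
      rw [← h1, card_bd_image]
      apply hc
      have hmemU : ∀ z, z ∈ U.image φ.symm ↔ φ z ∈ U := by
        intro z
        rw [Finset.mem_image]
        constructor
        · rintro ⟨y, hy, rfl⟩; simpa using hy
        · intro h; exact ⟨φ z, h, by simp⟩
      refine ⟨?_, ?_⟩
      · rw [hmemU, hU, Finset.mem_inter]
        refine ⟨hφW, hTmono (Nat.zero_le i) ?_⟩
        simp only [hT, nhk]
        exact Finset.mem_image_of_mem _ (Finset.mem_insert_self _ _)
      · intro a ha b hb
        rw [hmemU, hU, Finset.mem_inter] at ha ⊢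
        refine ⟨hW'.2 (φ a) ha.1 (φ b) (Finset.mem_union_right _ (hX ?_)), ?_⟩
        · rw [Finset.mem_image]
          exact ⟨s(a, b), hb, by simp⟩
        · apply hTmono (Nat.zero_le i)
          simp only [hT, nhk]
          exact Finset.mem_image_of_mem _ (Finset.mem_insert_of_mem (right_mem_ends hb))
    have hUn := D.hna U
    -- real arithmetic
    have hrR : (0 : ℝ) < r := by exact_mod_cast hr
    have hWcard : (W'.card : ℝ) = Wo.card + U.card := by
      conv_lhs => rw [hsplit]
      rw [Finset.card_union_of_disjoint hdisj.symm]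
      push_cast; ring
    have hthinR : (((W' ∩ T (i + 1)).card - (W' ∩ T i).card : ℕ) : ℝ) ≤ K / r := by
      rw [le_div_iff₀ hrR]
      have : (((W' ∩ T (i + 1)).card - (W' ∩ T i).card : ℕ) : ℝ) * r ≤ (W' ∩ T r).card := by
        exact_mod_cast hthin
      linarith
    have hebR : ((eb D.hlf U Wo).card : ℝ) ≤ D.d * (K / r) := by
      have h1 : ((eb D.hlf U Wo).card : ℝ) ≤
          D.d * (((W' ∩ T (i + 1)).card - (W' ∩ T i).card : ℕ) : ℝ) := by exact_mod_cast heb
      refine h1.trans (mul_le_mul_of_nonneg_left hthinR (Nat.cast_nonneg _))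
    have hcsR : (cw D.hlf B Wo : ℝ) + (bd D.hlf U).card ≤
        cw D.hlf B W' + 2 * (eb D.hlf U Wo).card := by
      rw [← hUcw]; exact_mod_cast hcs
    have hUcR : (c : ℝ) ≤ (bd D.hlf U).card := by exact_mod_cast hUc
    have hratio : η₂ / D.h ≤ 1 := by rw [div_le_one hpos]; linarith
    have hratio0 : 0 ≤ η₂ / D.h := div_nonneg hη20 hpos.le
    have hUη : η₂ * U.card ≤ (η₂ / D.h) * (bd D.hlf U).card := by
      rw [div_mul_eq_mul_div, le_div_iff₀ hpos]
      nlinarith
    have hfin : (1 - η₂ / D.h) * c ≤ (bd D.hlf U).card - η₂ * U.card := by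
      have h1 : (1 - η₂ / D.h) * c ≤ (1 - η₂ / D.h) * (bd D.hlf U).card :=
        mul_le_mul_of_nonneg_left hUcR (by linarith)
      nlinarith
    have h2 : min ((η₁ - η₂) * K) ((1 - η₂ / D.h) * c - 2 * D.d * (K / r)) ≤
        (1 - η₂ / D.h) * c - 2 * D.d * (K / r) := min_le_right _ _
    unfold gg at hWoP ⊢
    rw [hWcard]
    nlinarith

end

end Pool.Agent.Helper33.Perc
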