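import Pool.Agent.Helper33.Perc.Cut

set_option autoImplicit false

namespace Pool.Agent.Helper33.Perc

open scoped Classical

noncomputable section

variable {V : Type} {G : SimpleGraph V}

/-- orbit of `v` under the stabiliser of `u` -/
def orb (G : SimpleGraph V) (u v : V) : Set V := {w | ∃ φ : G ≃g G, φ u = u ∧ φ v = w}

theorem exists_nhk (hlf : ∀ v, (G.neighborSet v).Finite) (hconn : G.Connected) (x y : V) :
    ∃ k, y ∈ nhk hlf k {x} := by
  obtain ⟨p⟩ := hconn.preconnected y x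
  induction p with
  | nil => exact ⟨0, by simp [nhk]⟩
  | cons hadj p ih =>
    obtain ⟨k, hk⟩ := ih
    exact ⟨k + 1, adj_mem_nhk hlf hk hadj.symm⟩

theorem map_mem_nhk (hlf : ∀ v, (G.neighborSet v).Finite) (φ : G ≃g G) {x y : V} {k : ℕ}
    (h : y ∈ nhk hlf k {x}) : φ y ∈ nhk hlf k {φ x} := by
  have : nhk hlf k {φ x} = (nhk hlf k {x}).image φ := by
    rw [← nhk_image]; simp
  rw [this]
  exact Finset.mem_image_of_mem _ h

theorem orb_finite (hlf : ∀ v, (G.neighborSet v).Finite) (hconn : G.Connected)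
    (u v : V) : (orb G u v).Finite := by
  obtain ⟨k, hk⟩ := exists_nhk hlf hconn u v
  refine (nhk hlf k {u}).finite_toSet.subset ?_
  rintro w ⟨φ, h1, h2⟩
  have := map_mem_nhk hlf φ hk
  rw [h1, h2] at this
  exact this

theorem orb_pos (hlf : ∀ v, (G.neighborSet v).Finite) (hconn : G.Connected)
    (u v : V) : 0 < (orb G u v).ncard := by
  rw [Set.ncard_pos (orb_finite hlf hconn u v)]
  exact ⟨v, 1, rfl, rfl⟩

theorem orb_relIndex (u v : V) : (orb G u v).ncard =
    (MulAction.stabilizer (G ≃g G) v).relIndex (MulAction.stabilizer (G ≃g G) u) := by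
  have h1 : MulAction.stabilizer (MulAction.stabilizer (G ≃g G) u) v =
      (MulAction.stabilizer (G ≃g G) v).subgroupOf (MulAction.stabilizer (G ≃g G) u) := by
    ext φ
    rw [Subgroup.mem_subgroupOf, MulAction.mem_stabilizer_iff, MulAction.mem_stabilizer_iff]
    rfl
  have h2 : orb G u v = MulAction.orbit (MulAction.stabilizer (G ≃g G) u) v := by
    ext w
    constructor
    · rintro ⟨φ, h3, h4⟩
      exact ⟨⟨φ, h3⟩, h4⟩
    · rintro ⟨⟨φ, h3⟩, h4⟩
      exact ⟨φ, h3, h4⟩
  rw [h2, ← MulAction.index_stabilizer, h1]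
  rfl

/-- relative weight of two vertices -/
def rho (G : SimpleGraph V) (u v : V) : ℝ := (orb G v u).ncard / (orb G u v).ncard

theorem rho_mul (hlf : ∀ v, (G.neighborSet v).Finite) (hconn : G.Connected) (u v w : V) :
    rho G u v * rho G v w = rho G u w := by
  have key : ∀ a b : V, ∀ T : Subgroup (G ≃g G),
      T ≤ MulAction.stabilizer (G ≃g G) a ⊓ MulAction.stabilizer (G ≃g G) b →
      T.relIndex (MulAction.stabilizer (G ≃g G) a ⊓ MulAction.stabilizer (G ≃g G) b) ≠ 0 →
      rho G a b = (T.relIndex (MulAction.stabilizer (G ≃g G) b) : ℝ) /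
        T.relIndex (MulAction.stabilizer (G ≃g G) a) := by
    intro a b T hT hT0
    have h1 := Subgroup.relIndex_mul_relIndex T _ _ hT
      (inf_le_left : MulAction.stabilizer (G ≃g G) a ⊓ MulAction.stabilizer (G ≃g G) b ≤ _)
    have h2 := Subgroup.relIndex_mul_relIndex T _ _ hT
      (inf_le_right : MulAction.stabilizer (G ≃g G) a ⊓ MulAction.stabilizer (G ≃g G) b ≤ _)
    rw [Subgroup.inf_relIndex_left, ← orb_relIndex] at h1
    rw [Subgroup.inf_relIndex_right, ← orb_relIndex] at h2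
    unfold rho
    rw [← h1, ← h2]
    push_cast
    have h3 : (T.relIndex (MulAction.stabilizer (G ≃g G) a ⊓
      MulAction.stabilizer (G ≃g G) b) : ℝ) ≠ 0 := by exact_mod_cast hT0
    rw [mul_div_mul_left _ _ h3]
  set Su := MulAction.stabilizer (G ≃g G) u with hSu
  set Sv := MulAction.stabilizer (G ≃g G) v with hSv
  set Sw := MulAction.stabilizer (G ≃g G) w with hSw
  have hrel : ∀ a b : V, (MulAction.stabilizer (G ≃g G) a).relIndex
      (MulAction.stabilizer (G ≃g G) b) ≠ 0 := by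
    intro a b
    rw [← orb_relIndex]
    exact (orb_pos hlf hconn b a).ne'
  set T := Su ⊓ Sv ⊓ Sw with hT
  have hTu : T.relIndex Su ≠ 0 := Subgroup.relIndex_inf_ne_zero
    (Subgroup.relIndex_inf_ne_zero (by rw [Subgroup.relIndex_self]; exact one_ne_zero)
      (hrel v u)) (hrel w u)
  have hTv : T.relIndex Sv ≠ 0 := Subgroup.relIndex_inf_ne_zero
    (Subgroup.relIndex_inf_ne_zero (hrel u v)
      (by rw [Subgroup.relIndex_self]; exact one_ne_zero)) (hrel w v)
  have huv : T.relIndex (Su ⊓ Sv) ≠ 0 := by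
    intro h
    apply hTu
    rw [← Subgroup.relIndex_mul_relIndex T (Su ⊓ Sv) Su inf_le_left inf_le_left, h, zero_mul]
  have hvw : T.relIndex (Sv ⊓ Sw) ≠ 0 := by
    intro h
    apply hTv
    rw [← Subgroup.relIndex_mul_relIndex T (Sv ⊓ Sw) Sv
      (le_inf (inf_le_left.trans inf_le_right) inf_le_right) inf_le_left, h, zero_mul]
  have huw : T.relIndex (Su ⊓ Sw) ≠ 0 := by
    intro h
    apply hTu
    rw [← Subgroup.relIndex_mul_relIndex T (Su ⊓ Sw) Su
      (le_inf (inf_le_left.trans inf_le_left) inf_le_right) inf_le_left, h, zero_mul]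
  rw [key u v T inf_le_left huv,
    key v w T (le_inf (inf_le_left.trans inf_le_right) inf_le_right) hvw,
    key u w T (le_inf (inf_le_left.trans inf_le_left) inf_le_right) huw]
  have h1 : (T.relIndex Sv : ℝ) ≠ 0 := by exact_mod_cast hTv
  rw [div_mul_div_comm, mul_comm, mul_div_mul_right _ _ h1]

theorem rho_pos (hlf : ∀ v, (G.neighborSet v).Finite) (hconn : G.Connected) (u v : V) :
    0 < rho G u v := by
  unfold rho
  have h1 := orb_pos hlf hconn u v
  have h2 := orb_pos hlf hconn v u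
  positivity

theorem rho_self (hlf : ∀ v, (G.neighborSet v).Finite) (hconn : G.Connected) (u : V) :
    rho G u u = 1 := by
  unfold rho
  have h1 : ((orb G u u).ncard : ℝ) ≠ 0 := by exact_mod_cast (orb_pos hlf hconn u u).ne'
  exact div_self h1

theorem orb_map (φ : G ≃g G) (u v : V) : orb G (φ u) (φ v) = φ '' orb G u v := by
  ext w
  constructor
  · rintro ⟨ψ, h1, h2⟩
    refine ⟨(φ⁻¹ * ψ * φ) v, ⟨φ⁻¹ * ψ * φ, ?_, rfl⟩, ?_⟩
    · show φ.symm (ψ (φ u)) = u
      rw [h1]; simp
    · show φ (φ.symm (ψ (φ v))) = w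
      rw [h2]; simp
  · rintro ⟨x, ⟨ψ, h1, h2⟩, rfl⟩
    refine ⟨φ * ψ * φ⁻¹, ?_, ?_⟩
    · show φ (ψ (φ.symm (φ u))) = φ u
      simp [h1]
    · show φ (ψ (φ.symm (φ v))) = φ x
      simp [h2]

theorem rho_map (φ : G ≃g G) (u v : V) : rho G (φ u) (φ v) = rho G u v := by
  unfold rho
  rw [orb_map, orb_map, Set.ncard_image_of_injective _ φ.injective,
    Set.ncard_image_of_injective _ φ.injective]

theorem rho_adj_le (hlf : ∀ v, (G.neighborSet v).Finite) (hconn : G.Connected) (d : ℕ)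
    (hd : ∀ v, (nb hlf v).card ≤ d) {u v : V} (h : G.Adj u v) : rho G u v ≤ d := by
  unfold rho
  have h1 : (orb G v u).ncard ≤ d := by
    refine le_trans ?_ (hd v)
    rw [← Set.ncard_coe_finset]
    apply Set.ncard_le_ncard _ (Finset.finite_toSet _)
    rintro w ⟨φ, h1, h2⟩
    rw [Finset.mem_coe, mem_nb, ← h1, ← h2]
    exact (φ.map_rel_iff.2 h.symm)
  have h2 : 1 ≤ (orb G u v).ncard := orb_pos hlf hconn u v
  have h3 : (1 : ℝ) ≤ (orb G u v).ncard := by exact_mod_cast h2
  rw [div_le_iff₀ (by linarith)]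
  have h4 : ((orb G v u).ncard : ℝ) ≤ d := by exact_mod_cast h1
  have h5 : (0 : ℝ) ≤ d := Nat.cast_nonneg _
  nlinarith

theorem rho_nhk_le (hlf : ∀ v, (G.neighborSet v).Finite) (hconn : G.Connected) (d : ℕ)
    (hd0 : 0 < d) (hd : ∀ v, (nb hlf v).card ≤ d) (o : V) (R : ℝ) (X : Finset V)
    (hX : ∀ x ∈ X, rho G o x ≤ R) (k : ℕ) : ∀ x ∈ nhk hlf k X, rho G o x ≤ R * d ^ k := by
  induction k with
  | zero => simpa [nhk] using hX
  | succ k ih =>
    intro x hx
    rw [nhk, mem_nh] at hx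
    have hd1 : (1 : ℝ) ≤ d := by exact_mod_cast hd0
    rcases hx with hx | ⟨a, ha, hax⟩
    · have h1 := ih x hx
      have h2 := rho_pos hlf hconn o x
      have h3 : 0 ≤ R * (d : ℝ) ^ k := by linarith
      rw [pow_succ, ← mul_assoc]
      nlinarith
    · rw [← rho_mul hlf hconn o a x, pow_succ, ← mul_assoc]
      exact mul_le_mul (ih a ha) (rho_adj_le hlf hconn d hd hax) (rho_pos hlf hconn a x).le
        ((rho_pos hlf hconn o a).le.trans (ih a ha))

end

end Pool.Agent.Helper33.Perc
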