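import Pool.Agent.Helper33.Perc.Grow
import Pool.Agent.Helper33.Perc.Modular

set_option autoImplicit false

/-!
Near optimal blocks may be taken to be a connected piece together with pieces at bounded distance
from it.
-/

namespace Pool.Agent.Helper33.Perc

open scoped Classical
open Filter Topology

noncomputable section

variable {V : Type}

theorem path_edges (D : Dat V) (X : Finset V) (k : ℕ) :
    ∀ z ∈ nhk D.hlf k X, ∃ x ∈ X, ∃ Q : Finset (Sym2 V), (↑Q : Set (Sym2 V)) ⊆ D.G.edgeSet ∧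
      Q.card ≤ k ∧ ∀ W : Finset V, x ∈ W → Closed Q W → z ∈ W := by
  induction k with
  | zero =>
    intro z hz
    exact ⟨z, hz, ∅, by simp, by simp, fun W hz _ => hz⟩
  | succ k ih =>
    intro z hz
    rw [nhk, mem_nh] at hz
    rcases hz with hz | ⟨a, ha, haz⟩
    · obtain ⟨x, hx, Q, h1, h2, h3⟩ := ih z hz
      exact ⟨x, hx, Q, h1, by omega, h3⟩
    · obtain ⟨x, hx, Q, h1, h2, h3⟩ := ih a ha
      refine ⟨x, hx, insert s(a, z) Q, ?_, ?_, ?_⟩
      · intro e he
        rw [Finset.mem_coe, Finset.mem_insert] at he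
        rcases he with rfl | he
        · exact haz
        · exact h1 he
      · exact (Finset.card_insert_le _ _).trans (by omega)
      · intro W hxW hW
        have haW : a ∈ W := h3 W hxW (hW.mono (Finset.subset_insert _ _))
        exact hW a haW z (Finset.mem_insert_self _ _)

theorem mcl_subset {M : Finset (Sym2 V)} {x : V} {W : Finset V} (hx : x ∈ W)
    (hW : Closed M W) : mcl M x ⊆ W := fun _ hy => mem_mcl.1 hy W hx hW

theorem mcl_symm {M : Finset (Sym2 V)} {x y : V} (h : y ∈ mcl M x) : x ∈ mcl M y := by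
  rw [mem_mcl]
  intro W hy hW
  by_contra hx
  have h1 : Closed M (mcl M x \ W) := by
    intro a ha b hb
    rw [Finset.mem_sdiff] at ha ⊢
    refine ⟨closed_mcl M x a ha.1 b hb, fun hbW => ha.2 ?_⟩
    exact hW b hbW a (by rw [Sym2.eq_swap]; exact hb)
  have h2 := mcl_subset (Finset.mem_sdiff.2 ⟨self_mem_mcl M x, hx⟩) h1 h
  exact (Finset.mem_sdiff.1 h2).2 hy

/-- edges of `M` inside `C` -/
def ein (M : Finset (Sym2 V)) (C : Finset V) : Finset (Sym2 V) :=
  M.filter (fun e => ∀ a ∈ e, a ∈ C)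

theorem mem_ein {M : Finset (Sym2 V)} {C : Finset V} {e : Sym2 V} :
    e ∈ ein M C ↔ e ∈ M ∧ ∀ a ∈ e, a ∈ C := by
  unfold ein; rw [Finset.mem_filter]

theorem mk_mem_ein {M : Finset (Sym2 V)} {C : Finset V} {a b : V} :
    s(a, b) ∈ ein M C ↔ s(a, b) ∈ M ∧ a ∈ C ∧ b ∈ C := by
  rw [mem_ein]
  constructor
  · rintro ⟨h1, h2⟩
    exact ⟨h1, h2 a (by simp), h2 b (by simp)⟩
  · rintro ⟨h1, h2, h3⟩
    refine ⟨h1, fun c hc => ?_⟩
    rw [Sym2.mem_iff] at hc
    rcases hc with rfl | rfl
    · exact h2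
    · exact h3

theorem card_mcl_le (M : Finset (Sym2 V)) (x : V) :
    (mcl M x).card ≤ 2 * (ein M (mcl M x)).card + 1 := by
  have h1 : mcl M x ⊆ insert x (ends (ein M (mcl M x))) := by
    apply mcl_subset (Finset.mem_insert_self _ _)
    intro a ha b hb
    have haC : a ∈ mcl M x := by
      rw [Finset.mem_insert] at ha
      rcases ha with rfl | ha
      · exact self_mem_mcl _ _
      · rw [mem_ends] at ha
        obtain ⟨e, he, hae⟩ := ha
        exact (mem_ein.1 he).2 a hae
    have hbC := closed_mcl M x a haC b hb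
    exact Finset.mem_insert_of_mem (right_mem_ends (mk_mem_ein.2 ⟨hb, haC, hbC⟩))
  have h2 := Finset.card_le_card h1
  have h3 := Finset.card_insert_le x (ends (ein M (mcl M x)))
  have h4 := card_ends_le (ein M (mcl M x))
  omega

theorem merge (D : Dat V) (v : V) (M : Finset (Sym2 V))
    (hM : (↑M : Set (Sym2 V)) ⊆ D.G.edgeSet) (ε : ℝ) (hε : 0 < ε) :
    ∃ P : Finset (Sym2 V), M ⊆ P ∧ (↑P : Set (Sym2 V)) ⊆ D.G.edgeSet ∧
      (P.card : ℝ) ≤ (1 + ε) * M.card ∧
      ∀ z, z ∉ mcl P v → ∀ r : ℕ, z ∈ nhk D.hlf r (mcl P v) →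
        ε * (ein M (mcl M z)).card < r := by
  set S : Set ℕ := {m | ∃ P : Finset (Sym2 V), M ⊆ P ∧ (↑P : Set (Sym2 V)) ⊆ D.G.edgeSet ∧
    ((P \ M).card : ℝ) ≤ ε * m ∧ m = (ein M (mcl P v)).card} with hS
  have hbd : BddAbove S := by
    refine ⟨M.card, ?_⟩
    rintro m ⟨P, _, _, _, rfl⟩
    exact Finset.card_le_card (Finset.filter_subset _ _)
  have hne : S.Nonempty := by
    refine ⟨(ein M (mcl M v)).card, M, subset_rfl, hM, ?_, rfl⟩
    rw [Finset.sdiff_self]; simp; positivity
  obtain ⟨P, hMP, hPE, hPc, hPm⟩ := Nat.sSup_mem hne hbd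
  set m := sSup S with hm
  have hmax : ∀ m' ∈ S, m' ≤ m := fun m' h => le_csSup hbd h
  refine ⟨P, hMP, hPE, ?_, ?_⟩
  · have h1 : (P.card : ℝ) = M.card + (P \ M).card := by
      have := Finset.card_sdiff_add_card_eq_card hMP
      have h2 : P.card = M.card + (P \ M).card := by omega
      exact_mod_cast h2
    have h2 : (m : ℝ) ≤ M.card := by
      rw [hPm]; exact_mod_cast Finset.card_le_card (Finset.filter_subset _ _)
    have h3 : ε * (m : ℝ) ≤ ε * M.card := mul_le_mul_of_nonneg_left h2 hε.le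
    rw [h1, add_mul, one_mul]
    linarith
  · intro z hz r hr
    by_contra hcon
    push Not at hcon
    obtain ⟨x, hx, Q, hQE, hQc, hQW⟩ := path_edges D (mcl P v) r z hr
    set m' := (ein M (mcl M z)).card with hm'
    set P' := P ∪ Q with hP'
    have hclP : Closed P (mcl P' v) := (closed_mcl P' v).mono Finset.subset_union_left
    have hsub1 : mcl P v ⊆ mcl P' v := mcl_subset (self_mem_mcl _ _) hclP
    have hzP' : z ∈ mcl P' v := hQW _ (hsub1 hx) ((closed_mcl P' v).mono Finset.subset_union_right)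
    have hsub2 : mcl M z ⊆ mcl P' v := mcl_subset hzP' (hclP.mono hMP)
    have hdis : Disjoint (mcl P v) (mcl M z) := by
      rw [Finset.disjoint_left]
      intro w hw hwz
      apply hz
      exact mcl_subset hw ((closed_mcl P v).mono hMP) (mcl_symm hwz)
    have hdis2 : Disjoint (ein M (mcl P v)) (ein M (mcl M z)) := by
      rw [Finset.disjoint_left]
      intro e he he'
      induction e using Sym2.ind with
      | _ a b => exact Finset.disjoint_left.1 hdis (mk_mem_ein.1 he).2.1 (mk_mem_ein.1 he').2.1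
    have hcard : m + m' ≤ (ein M (mcl P' v)).card := by
      rw [hPm, hm', ← Finset.card_union_of_disjoint hdis2]
      apply Finset.card_le_card
      intro e he
      rw [Finset.mem_union] at he
      rcases he with he | he
      · exact mem_ein.2 ⟨(mem_ein.1 he).1, fun a ha => hsub1 ((mem_ein.1 he).2 a ha)⟩
      · exact mem_ein.2 ⟨(mem_ein.1 he).1, fun a ha => hsub2 ((mem_ein.1 he).2 a ha)⟩
    have hcardR : (m : ℝ) + m' ≤ (ein M (mcl P' v)).card := by exact_mod_cast hcard
    have hP'c : ((P' \ M).card : ℝ) ≤ ε * (ein M (mcl P' v)).card := by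
      have h1 : (P' \ M).card ≤ (P \ M).card + Q.card := by
        refine le_trans (Finset.card_le_card ?_) (Finset.card_union_le _ _)
        intro e he
        rw [Finset.mem_sdiff, hP', Finset.mem_union] at he
        rw [Finset.mem_union, Finset.mem_sdiff]
        tauto
      have h2 : ((P' \ M).card : ℝ) ≤ (P \ M).card + r := by
        have : (P' \ M).card ≤ (P \ M).card + r := by omega
        exact_mod_cast this
      have h3 := mul_le_mul_of_nonneg_left hcardR hε.le
      rw [mul_add] at h3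
      linarith
    have h5 := hmax _ ⟨P', hMP.trans Finset.subset_union_left, by
      rw [hP', Finset.coe_union]; exact Set.union_subset hPE hQE, hP'c, rfl⟩
    have h6 : m' = 0 := by omega
    rw [h6] at hcon
    simp only [Nat.cast_zero, mul_zero] at hcon
    have h7 : r = 0 := by
      have : r ≤ 0 := by exact_mod_cast hcon
      omega
    subst h7
    exact hz hr

theorem card_bd_union_le (D : Dat V) (A C : Finset V) :
    (bd D.hlf (A ∪ C)).card ≤ (bd D.hlf A).card + (bd D.hlf C).card := by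
  have h := cw_submod D.hlf ∅ A C
  unfold cw at h
  simp only [Finset.sdiff_empty] at h
  omega

theorem card_bd_biUnion_le (D : Dat V) (S : Finset V) (g : V → Finset V) :
    (bd D.hlf (S.biUnion g)).card ≤ ∑ z ∈ S, (bd D.hlf (g z)).card := by
  induction S using Finset.induction_on with
  | empty => simp [bd]
  | insert a S ha ih =>
    rw [Finset.biUnion_insert, Finset.sum_insert ha]
    exact (card_bd_union_le D _ _).trans (by omega)

theorem localize (D : Dat V) (hd0 : 0 < D.d) (ε δ : ℝ) (hε : 0 < ε) (hδ : 0 < δ) :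
    ∃ R : ℕ, ∀ (v : V) (M P : Finset (Sym2 V)), (↑M : Set (Sym2 V)) ⊆ D.G.edgeSet →
      1 ≤ M.card → M ⊆ P →
      (∀ z, z ∉ mcl P v → ∀ r : ℕ, z ∈ nhk D.hlf r (mcl P v) →
        ε * (ein M (mcl M z)).card < r) →
      ∀ F : ℝ, (∀ W, Adm v M W → F ≤ (bd D.hlf W).card) →
        ∀ W, Adm v (ein P (nhk D.hlf R (mcl P v))) W → F - δ * M.card ≤ (bd D.hlf W).card := by
  have hpos := D.hpos
  have hdR : (0 : ℝ) < D.d := by exact_mod_cast hd0
  set δ' := δ / (D.d * (3 + 2 / ε)) with hδ'
  have hδ'pos : 0 < δ' := by rw [hδ']; positivity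
  have hharm := Real.tendsto_sum_range_one_div_nat_succ_atTop
  obtain ⟨R, hR⟩ := (hharm.eventually (eventually_gt_atTop (3 * D.d / (D.h * δ')))).exists
  refine ⟨R, ?_⟩
  intro v M P hME hM1 hMP hmerge F hF W hW
  have hMR : (1 : ℝ) ≤ M.card := by exact_mod_cast hM1
  rcases le_or_gt F ((bd D.hlf W).card : ℝ) with hle | hlt
  · have : 0 ≤ δ * (M.card : ℝ) := by positivity
    linarith
  set X := mcl P v with hX
  have hXR : ∀ i, X ⊆ nhk D.hlf i X := fun i => nhk_mono D.hlf X (Nat.zero_le i)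
  -- size of W
  have hWc : (W.card : ℝ) ≤ 3 * D.d / D.h * M.card := by
    have h1 := hF _ (adm_insert_ends v M)
    have h2 := card_bd_le D.hlf D.d D.hd (insert v (ends M))
    have h3 := Finset.card_insert_le v (ends M)
    have h4 := card_ends_le M
    have h5 : (bd D.hlf (insert v (ends M))).card ≤ D.d * (3 * M.card) :=
      h2.trans (Nat.mul_le_mul_left _ (by omega))
    have h6 : ((bd D.hlf (insert v (ends M))).card : ℝ) ≤ D.d * (3 * M.card) := by
      exact_mod_cast h5
    have h7 := D.hna W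
    have h8 : D.h * W.card ≤ 3 * D.d * M.card := by linarith
    calc (W.card : ℝ) = (D.h * W.card) / D.h := by field_simp
      _ ≤ (3 * D.d * M.card) / D.h := div_le_div_of_nonneg_right h8 hpos.le
      _ = 3 * D.d / D.h * M.card := by ring
  -- X inside W
  have hXW : X ⊆ W := by
    have h1 : X ⊆ W ∩ X := by
      apply mcl_subset (Finset.mem_inter.2 ⟨hW.1, self_mem_mcl _ _⟩)
      intro a ha b hb
      rw [Finset.mem_inter] at ha ⊢
      have hbX : b ∈ X := closed_mcl P v a ha.2 b hb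
      exact ⟨hW.2 a ha.1 b (mk_mem_ein.2 ⟨hb, hXR R ha.2, hXR R hbX⟩), hbX⟩
    exact fun x hx => (Finset.mem_inter.1 (h1 hx)).1
  -- thin shell
  set f : ℕ → ℕ := fun i => (W ∩ nhk D.hlf i X).card with hf
  have hfm : ∀ i, W ∩ nhk D.hlf i X ⊆ W ∩ nhk D.hlf (i + 1) X := fun i =>
    Finset.inter_subset_inter_left (nhk_mono D.hlf X (Nat.le_succ i))
  obtain ⟨i, hiR, hi⟩ : ∃ i < R, ((f (i + 1) : ℝ) - f i) * ((i : ℝ) + 1) ≤ δ' * M.card := by
    by_contra hcon
    push Not at hcon
    have h1 : ∑ i ∈ Finset.range R, (δ' * M.card) * (1 / ((i : ℝ) + 1)) ≤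
        ∑ i ∈ Finset.range R, ((f (i + 1) : ℝ) - f i) := by
      refine Finset.sum_le_sum fun i hi => ?_
      have h2 := hcon i (Finset.mem_range.1 hi)
      have h3 : (0 : ℝ) < (i : ℝ) + 1 := by positivity
      rw [mul_one_div, div_le_iff₀ h3]
      exact h2.le
    rw [← Finset.mul_sum, Finset.sum_range_sub (fun i => (f i : ℝ)) R] at h1
    have h2 : (f R : ℝ) ≤ W.card := by
      have : f R ≤ W.card := Finset.card_le_card Finset.inter_subset_left
      exact_mod_cast this
    have h3 : (0 : ℝ) ≤ f 0 := Nat.cast_nonneg _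
    have h4 : (δ' * M.card) * (3 * D.d / (D.h * δ')) <
        (δ' * M.card) * ∑ i ∈ Finset.range R, (1 / ((i : ℝ) + 1)) :=
      mul_lt_mul_of_pos_left hR (by positivity)
    have h5 : (δ' * M.card) * (3 * D.d / (D.h * δ')) = 3 * D.d / D.h * M.card := by
      field_simp
    linarith
  set U := W ∩ nhk D.hlf i X with hU
  set Wo := W \ nhk D.hlf i X with hWo
  set S := (W ∩ nhk D.hlf (i + 1) X) \ U with hS
  have hSc : (S.card : ℝ) = (f (i + 1) : ℝ) - f i := by
    have h1 : S.card = f (i + 1) - f i := by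
      rw [hS, Finset.card_sdiff_of_subset (hfm i)]
    have h2 : f i ≤ f (i + 1) := Finset.card_le_card (hfm i)
    rw [h1, Nat.cast_sub h2]
  have hsplit : W = Wo ∪ U := by
    ext z
    rw [hWo, hU, Finset.mem_union, Finset.mem_sdiff, Finset.mem_inter]
    tauto
  have hdisj : Disjoint U Wo := by
    rw [hU, hWo]
    exact Finset.disjoint_left.2 fun z hz hz' => by
      rw [Finset.mem_inter] at hz
      rw [Finset.mem_sdiff] at hz'
      exact hz'.2 hz.2
  have heb : (eb D.hlf U Wo).card ≤ D.d * S.card := by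
    refine card_eb_le D.hlf D.d D.hd U Wo S ?_
    intro a ha b hb hab
    rw [hU, Finset.mem_inter] at ha
    rw [hWo, Finset.mem_sdiff] at hb
    rw [hS, hU, Finset.mem_sdiff, Finset.mem_inter, Finset.mem_inter]
    exact ⟨⟨hb.1, adj_mem_nhk D.hlf ha.2 hab⟩, fun h => hb.2 h.2⟩
  have hbdU : (bd D.hlf U).card ≤ (bd D.hlf W).card + 2 * (D.d * S.card) := by
    have h1 := cw_split D.hlf ∅ U Wo hdisj
    rw [← hsplit] at h1
    unfold cw at h1
    simp only [Finset.sdiff_empty] at h1
    omega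
  set W2 := U ∪ S.biUnion (mcl M) with hW2
  have hadm : Adm v M W2 := by
    refine ⟨?_, ?_⟩
    · rw [hW2, Finset.mem_union]
      left
      rw [hU, Finset.mem_inter]
      exact ⟨hW.1, hXR i (self_mem_mcl _ _)⟩
    · intro a ha b hb
      rw [hW2, Finset.mem_union] at ha
      rcases ha with ha | ha
      · rw [hU, Finset.mem_inter] at ha
        have hab : D.G.Adj a b := hME hb
        have hb1 : b ∈ nhk D.hlf (i + 1) X := adj_mem_nhk D.hlf ha.2 hab
        have hbW : b ∈ W := by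
          apply hW.2 a ha.1 b
          rw [mk_mem_ein]
          exact ⟨hMP hb, nhk_mono D.hlf X (by omega : i ≤ R) ha.2,
            nhk_mono D.hlf X (by omega : i + 1 ≤ R) hb1⟩
        rw [hW2, Finset.mem_union]
        by_cases hbU : b ∈ U
        · exact Or.inl hbU
        · right
          rw [Finset.mem_biUnion]
          refine ⟨b, ?_, self_mem_mcl _ _⟩
          rw [hS, Finset.mem_sdiff, Finset.mem_inter]
          exact ⟨⟨hbW, hb1⟩, hbU⟩
      · rw [Finset.mem_biUnion] at ha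
        obtain ⟨z, hz, haz⟩ := ha
        rw [hW2, Finset.mem_union]
        right
        rw [Finset.mem_biUnion]
        exact ⟨z, hz, closed_mcl M z a haz b hb⟩
  have hmz : ∀ z ∈ S, ((bd D.hlf (mcl M z)).card : ℝ) ≤
      D.d * (2 * (((i : ℝ) + 1) / ε) + 1) := by
    intro z hz
    rw [hS, Finset.mem_sdiff, Finset.mem_inter] at hz
    have hzX : z ∉ mcl P v := by
      intro h
      apply hz.2
      rw [hU, Finset.mem_inter]
      exact ⟨hz.1.1, hXR i h⟩
    have h1 := hmerge z hzX (i + 1) hz.1.2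
    have h2 : ((ein M (mcl M z)).card : ℝ) ≤ ((i : ℝ) + 1) / ε := by
      rw [le_div_iff₀ hε]
      push_cast at h1
      linarith
    have h3 := card_bd_le D.hlf D.d D.hd (mcl M z)
    have h4 := card_mcl_le M z
    have h5 : (bd D.hlf (mcl M z)).card ≤ D.d * (2 * (ein M (mcl M z)).card + 1) :=
      h3.trans (Nat.mul_le_mul_left _ h4)
    have h6 : ((bd D.hlf (mcl M z)).card : ℝ) ≤ D.d * (2 * (ein M (mcl M z)).card + 1) := by
      exact_mod_cast h5
    refine h6.trans (mul_le_mul_of_nonneg_left ?_ hdR.le)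
    linarith
  have hbd2 : ((bd D.hlf W2).card : ℝ) ≤ (bd D.hlf W).card + 2 * (D.d * S.card) +
      S.card * (D.d * (2 * (((i : ℝ) + 1) / ε) + 1)) := by
    have h1 := card_bd_union_le D U (S.biUnion (mcl M))
    have h2 := card_bd_biUnion_le D S (mcl M)
    have h3 : (bd D.hlf W2).card ≤ (bd D.hlf W).card + 2 * (D.d * S.card) +
        ∑ z ∈ S, (bd D.hlf (mcl M z)).card := by
      rw [hW2]; omega
    have h4 : ((∑ z ∈ S, (bd D.hlf (mcl M z)).card : ℕ) : ℝ) ≤
        S.card * (D.d * (2 * (((i : ℝ) + 1) / ε) + 1)) := by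
      push_cast
      calc ∑ z ∈ S, ((bd D.hlf (mcl M z)).card : ℝ) ≤
            ∑ z ∈ S, (D.d * (2 * (((i : ℝ) + 1) / ε) + 1) : ℝ) := Finset.sum_le_sum hmz
        _ = _ := by rw [Finset.sum_const, nsmul_eq_mul]
    have h5 : ((bd D.hlf W2).card : ℝ) ≤ (bd D.hlf W).card + 2 * (D.d * S.card) +
        ((∑ z ∈ S, (bd D.hlf (mcl M z)).card : ℕ) : ℝ) := by exact_mod_cast h3
    linarith
  have hF2 := hF _ hadm
  rw [← hSc] at hi
  have hi1 : (1 : ℝ) ≤ (i : ℝ) + 1 := by
    have : (0 : ℝ) ≤ i := Nat.cast_nonneg _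
    linarith
  have hSnn : (0 : ℝ) ≤ S.card := Nat.cast_nonneg _
  have hSle : (S.card : ℝ) ≤ S.card * ((i : ℝ) + 1) := by nlinarith
  have htot : 2 * (D.d * (S.card : ℝ)) + S.card * (D.d * (2 * (((i : ℝ) + 1) / ε) + 1)) ≤
      (S.card * ((i : ℝ) + 1)) * (D.d * (3 + 2 / ε)) := by
    have h1 : S.card * (D.d * (2 * (((i : ℝ) + 1) / ε) + 1)) =
        (S.card * ((i : ℝ) + 1)) * (D.d * (2 / ε)) + D.d * S.card := by ring
    rw [h1]
    have h2 : D.d * (S.card : ℝ) ≤ D.d * (S.card * ((i : ℝ) + 1)) :=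
      mul_le_mul_of_nonneg_left hSle hdR.le
    have h3 : (S.card * ((i : ℝ) + 1)) * (D.d * (3 + 2 / ε)) =
        (S.card * ((i : ℝ) + 1)) * (D.d * (2 / ε)) + 3 * (D.d * (S.card * ((i : ℝ) + 1))) := by
      ring
    rw [h3]
    linarith
  have hlast : (S.card * ((i : ℝ) + 1)) * (D.d * (3 + 2 / ε)) ≤ δ * M.card := by
    have h0 : δ' * (D.d * (3 + 2 / ε)) = δ := by
      rw [hδ']; exact div_mul_cancel₀ _ (ne_of_gt (by positivity))
    calc (S.card * ((i : ℝ) + 1)) * (D.d * (3 + 2 / ε)) ≤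
          (δ' * M.card) * (D.d * (3 + 2 / ε)) :=
          mul_le_mul_of_nonneg_right hi (by positivity)
      _ = (δ' * (D.d * (3 + 2 / ε))) * M.card := by ring
      _ = δ * M.card := by rw [h0]
  linarith

end

end Pool.Agent.Helper33.Perc
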