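import Pool.Agent.Helper33.Perc.Sub
import Pool.Agent.Helper68.Perc.Game

set_option autoImplicit false

/-!
A whole turn of Maker and the Maker side of the threshold theorem.
-/

namespace Pool.Agent.Helper33.Perc

open scoped Classical
open Filter Topology

noncomputable section

variable {V : Type}

/-- the conclusion of `substep` for given constants -/
def SubOK (E : Env V) (v₀ : V) (b ε η A : ℝ) (L : ℕ) : Prop :=
  ∀ M B : Finset (Sym2 V), (M.card + B.card + 1 : ℝ) ≤ A * Psi E.toDat v₀ η M B →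
    ∃ X : Finset (Sym2 V), (↑X : Set (Sym2 V)) ⊆ E.G.edgeSet ∧ Disjoint X (M ∪ B) ∧
      X.card ≤ L ∧ Psi E.toDat v₀ η M B + (b - ε) * L ≤ Psi E.toDat v₀ η (M ∪ X) B

theorem iterate_sub (E : Env V) (v₀ : V) (b ε η A : ℝ) (hA : 0 < A) (hA1 : 1 ≤ A * (b - ε))
    (L : ℕ) (hS : SubOK E v₀ b ε η A L) (M B : Finset (Sym2 V))
    (hMB : (M.card + B.card + 1 : ℝ) ≤ A * Psi E.toDat v₀ η M B) (k : ℕ) :
    ∃ X : Finset (Sym2 V), (↑X : Set (Sym2 V)) ⊆ E.G.edgeSet ∧ Disjoint X (M ∪ B) ∧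
      X.card ≤ k * L ∧ Psi E.toDat v₀ η M B + (b - ε) * (k * L : ℕ) ≤
        Psi E.toDat v₀ η (M ∪ X) B := by
  induction k with
  | zero => exact ⟨∅, by simp, by simp, by simp, by simp⟩
  | succ k ih =>
    obtain ⟨X, hXE, hXd, hXc, hXP⟩ := ih
    have h1 : ((M ∪ X).card : ℝ) ≤ M.card + (k * L : ℕ) := by
      have h2 := Finset.card_union_le M X
      have h3 : (M ∪ X).card ≤ M.card + k * L := by omega
      exact_mod_cast h3
    have h2 : ((M ∪ X).card + B.card + 1 : ℝ) ≤ A * Psi E.toDat v₀ η (M ∪ X) B := by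
      have h3 : ((k * L : ℕ) : ℝ) ≤ A * ((b - ε) * (k * L : ℕ)) := by
        have h4 : (0 : ℝ) ≤ ((k * L : ℕ) : ℝ) := Nat.cast_nonneg _
        calc ((k * L : ℕ) : ℝ) = 1 * ((k * L : ℕ) : ℝ) := (one_mul _).symm
          _ ≤ (A * (b - ε)) * ((k * L : ℕ) : ℝ) := mul_le_mul_of_nonneg_right hA1 h4
          _ = _ := by ring
      have h5 := mul_le_mul_of_nonneg_left hXP hA.le
      rw [mul_add] at h5
      linarith
    obtain ⟨Y, hYE, hYd, hYc, hYP⟩ := hS _ _ h2
    refine ⟨X ∪ Y, ?_, ?_, ?_, ?_⟩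
    · rw [Finset.coe_union]; exact Set.union_subset hXE hYE
    · rw [Finset.disjoint_union_left]
      refine ⟨hXd, hYd.mono_right ?_⟩
      exact Finset.union_subset_union_left Finset.subset_union_left
    · have := Finset.card_union_le X Y
      rw [add_mul, one_mul]; omega
    · rw [← Finset.union_assoc]
      refine le_trans ?_ hYP
      have : (((k + 1) * L : ℕ) : ℝ) = (k * L : ℕ) + L := by push_cast; ring
      rw [this, mul_add]
      linarith

theorem edgeSet_infinite_of_cheeger (D : Dat V) (v₀ : V) : D.G.edgeSet.Infinite := by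
  intro hfin
  -- the ends of all edges together with `v₀` have empty boundary
  set W := insert v₀ (ends hfin.toFinset) with hW
  have h1 : bd D.hlf W = ∅ := by
    rw [Finset.eq_empty_iff_forall_notMem]
    intro e he
    rw [mem_bd] at he
    obtain ⟨a, _, b, hb, hab, rfl⟩ := he
    apply hb
    rw [hW]
    exact Finset.mem_insert_of_mem (right_mem_ends (M := hfin.toFinset)
      (a := a) ((Set.Finite.mem_toFinset _).2 hab))
  have h2 := D.hna W
  rw [h1] at h2
  simp only [Finset.card_empty, Nat.cast_zero] at h2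
  have h3 : (0 : ℝ) < W.card := by
    exact_mod_cast Finset.card_pos.2 ⟨v₀, Finset.mem_insert_self _ _⟩
  have := mul_pos D.hpos h3
  linarith

theorem pad (D : Dat V) (v₀ : V) (X F : Finset (Sym2 V)) (hXE : (↑X : Set (Sym2 V)) ⊆ D.G.edgeSet)
    (hXF : Disjoint X F) (p : ℕ) (hp : X.card ≤ p) :
    ∃ X' : Finset (Sym2 V), X ⊆ X' ∧ (↑X' : Set (Sym2 V)) ⊆ D.G.edgeSet ∧ Disjoint X' F ∧
      X'.card = p := by
  have h1 : (D.G.edgeSet \ (↑(X ∪ F) : Set (Sym2 V))).Infinite :=
    (edgeSet_infinite_of_cheeger D v₀).sdiff (X ∪ F).finite_toSet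
  obtain ⟨T, hT, hTc⟩ := h1.exists_subset_card_eq (p - X.card)
  refine ⟨X ∪ T, Finset.subset_union_left, ?_, ?_, ?_⟩
  · rw [Finset.coe_union]
    exact Set.union_subset hXE fun e he => (hT he).1
  · rw [Finset.disjoint_union_left]
    refine ⟨hXF, ?_⟩
    rw [Finset.disjoint_left]
    intro e he heF
    exact (hT he).2 (Finset.mem_coe.2 (Finset.mem_union_right _ heF))
  · rw [Finset.card_union_of_disjoint, hTc]
    · omega
    · rw [Finset.disjoint_right]
      intro e he heX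
      exact (hT he).2 (Finset.mem_coe.2 (Finset.mem_union_left _ heX))

theorem turn (E : Env V) (v₀ : V) (b ε η A : ℝ) (hη0 : 0 < η) (hη : η < E.h) (hA : 0 < A)
    (hA1 : 1 ≤ A * (b - ε)) (hbε : 0 ≤ b - ε)
    (L : ℕ) (hL : 1 ≤ L) (hS : SubOK E v₀ b ε η A L) (M B : Finset (Sym2 V))
    (hMB : (M.card + B.card + 1 : ℝ) ≤ A * Psi E.toDat v₀ η M B) (p : ℕ) :
    ∃ X : Finset (Sym2 V), (↑X : Set (Sym2 V)) ⊆ E.G.edgeSet ∧ Disjoint X (M ∪ B) ∧
      X.card = p ∧ Psi E.toDat v₀ η M B + (b - ε) * (p - L) ≤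
        Psi E.toDat v₀ η (M ∪ X) B := by
  obtain ⟨X, hXE, hXd, hXc, hXP⟩ := iterate_sub E v₀ b ε η A hA hA1 L hS M B hMB (p / L)
  have h1 : p / L * L ≤ p := Nat.div_mul_le_self p L
  obtain ⟨X', hXX', hX'E, hX'd, hX'c⟩ := pad E.toDat v₀ X (M ∪ B) hXE hXd p (by omega)
  refine ⟨X', hX'E, hX'd, hX'c, ?_⟩
  have h2 := psi_mono E.toDat v₀ η hη0.le hη (B := B)
    (Finset.union_subset_union_right (s := M) hXX')
  refine le_trans ?_ h2
  refine le_trans ?_ hXP
  have h3 : (p : ℝ) - L ≤ (p / L * L : ℕ) := by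
    have h4 : p ≤ p / L * L + L := by
      have := Nat.div_add_mod p L
      have h5 := Nat.mod_lt p (show 0 < L by omega)
      rw [mul_comm] at this
      omega
    have h6 : (p : ℝ) ≤ (p / L * L : ℕ) + L := by exact_mod_cast h4
    linarith
  have := mul_le_mul_of_nonneg_left h3 hbε
  linarith

/-- the lower bound for the cut function -/
theorem cut_lower [Nonempty V] (E : Env V) (b : ℝ) (hb0 : 0 < b) (hb : Freq E b)
    (ε : ℝ) (hε : 0 < ε) (hεb : ε < b) :
    ∃ L : ℕ, ∀ (v₀ : V) (p : ℕ), ∃ X : Finset (Sym2 V), (↑X : Set (Sym2 V)) ⊆ E.G.edgeSet ∧ X.card = p ∧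
      ∀ W, Adm v₀ X W → (b - ε) * (p - L) ≤ (bd E.hlf W).card := by
  obtain ⟨η, hη0, hη, hstep⟩ := substep E b hb0 hb ε hε
  set A := 1 / (b - ε) + 1 / (E.h - η) with hA
  have hbε : 0 < b - ε := by linarith
  have hhη : 0 < E.h - η := by linarith
  have hApos : 0 < A := by rw [hA]; positivity
  obtain ⟨L, hL, hS⟩ := hstep A hApos
  have hA1 : 1 ≤ A * (b - ε) := by
    rw [hA, add_mul, one_div_mul_cancel hbε.ne']
    have : 0 ≤ 1 / (E.h - η) * (b - ε) := by positivity
    linarith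
  have h0 : ∀ v₀, (((∅ : Finset (Sym2 V)).card : ℝ) + (∅ : Finset (Sym2 V)).card + 1) ≤
      A * Psi E.toDat v₀ η ∅ ∅ := by
    intro v₀
    have h1 := psi_init E.toDat v₀ η hη0.le hη ∅
    simp only [Finset.card_empty, Nat.cast_zero, zero_add]
    calc (1 : ℝ) = 1 / (E.h - η) * (E.h - η) := (one_div_mul_cancel hhη.ne').symm
      _ ≤ A * (E.h - η) := by
          apply mul_le_mul_of_nonneg_right _ hhη.le
          rw [hA]
          have : 0 ≤ 1 / (b - ε) := by positivity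
          linarith
      _ ≤ A * Psi E.toDat v₀ η ∅ ∅ := mul_le_mul_of_nonneg_left h1 hApos.le
  refine ⟨L, fun v₀ p => ?_⟩
  obtain ⟨X, hXE, _, hXc, hXP⟩ :=
    turn E v₀ b ε η A hη0 hη hApos hA1 hbε.le L hL (hS v₀) ∅ ∅ (h0 v₀) p
  refine ⟨X, hXE, hXc, fun W hW => ?_⟩
  rw [Finset.empty_union] at hXP
  have h1 := psi_init E.toDat v₀ η hη0.le hη ∅
  have h2 := psi_le E.toDat v₀ η hη0.le hη (B := ∅) hW
  unfold gg at h2
  have h3 : (cw E.hlf ∅ W : ℝ) ≤ (bd E.hlf W).card := by exact_mod_cast cw_le E.hlf ∅ W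
  have h4 : 0 ≤ η * (W.card : ℝ) := by positivity
  linarith

theorem infinite_comp (D : Dat V) (v₀ : V) (η : ℝ) (hη0 : 0 < η) (hη : η < D.h)
    (M B : Finset (Sym2 V)) (hM : (↑M : Set (Sym2 V)) ⊆ D.G.edgeSet) (hd : Disjoint M B)
    (hpos : 0 < Psi D v₀ η M B) :
    {w : V | (D.G.deleteEdges (↑B : Set (Sym2 V))).Reachable v₀ w}.Infinite := by
  intro hfin
  set W := hfin.toFinset with hW
  have hmem : ∀ w, w ∈ W ↔ (D.G.deleteEdges (↑B : Set (Sym2 V))).Reachable v₀ w := by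
    intro w; rw [hW]; simp
  have hext : ∀ a ∈ W, ∀ b, D.G.Adj a b → s(a, b) ∉ B → b ∈ W := by
    intro a ha b hab hB
    rw [hmem] at ha ⊢
    refine ha.trans (SimpleGraph.Adj.reachable ?_)
    rw [SimpleGraph.deleteEdges_adj]
    exact ⟨hab, by simpa using hB⟩
  have hadm : Adm v₀ M W := by
    refine ⟨(hmem v₀).2 (SimpleGraph.Reachable.refl _), ?_⟩
    intro a ha b hab
    exact hext a ha b (hM hab) (Finset.disjoint_left.1 hd hab)
  have h1 := psi_le D v₀ η hη0.le hη (B := B) hadm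
  have h2 : cw D.hlf B W = 0 := by
    unfold cw
    rw [Finset.card_eq_zero, Finset.sdiff_eq_empty_iff_subset]
    intro e he
    rw [mem_bd] at he
    obtain ⟨a, ha, b, hb, hab, rfl⟩ := he
    by_contra hcon
    exact hb (hext a ha b hab hcon)
  unfold gg at h1
  rw [h2] at h1
  have : 0 ≤ η * (W.card : ℝ) := by positivity
  simp only [Nat.cast_zero, zero_sub] at h1
  linarith

/-- Maker side -/
theorem maker_side [Nonempty V] (E : Env V) (b : ℝ) (hb0 : 0 < b) (hb : Freq E b)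
    (δ : ℝ) (hδ : 0 < δ) :
    ∃ p₀ : ℕ, ∀ p q : ℕ, p₀ ≤ p → (q : ℝ) < (b - δ) * p → ∀ v₀ : V,
      Pool.Agent.Perc.MakerWins E.G v₀ p q := by
  rcases le_or_gt b δ with hbδ | hbδ
  · refine ⟨0, fun p q _ hq v₀ => ?_⟩
    exfalso
    have h1 : (0 : ℝ) ≤ q := Nat.cast_nonneg _
    have h2 : (b - δ) * (p : ℝ) ≤ 0 :=
      mul_nonpos_of_nonpos_of_nonneg (by linarith) (Nat.cast_nonneg _)
    linarith
  set ε := δ / 3 with hε
  have hε0 : 0 < ε := by positivity
  obtain ⟨η, hη0, hη, hstep⟩ := substep E b hb0 hb ε hε0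
  have hhη : 0 < E.h - η := by linarith
  set A := (1 + b) / ε + 1 / (E.h - η) with hA
  have hApos : 0 < A := by rw [hA]; positivity
  obtain ⟨L, hL, hS⟩ := hstep A hApos
  have hbε : 2 * ε ≤ b - ε := by rw [hε]; linarith
  have hAε : 1 + b ≤ A * ε := by
    rw [hA, add_mul, div_mul_cancel₀ _ hε0.ne']
    have : 0 ≤ 1 / (E.h - η) * ε := by positivity
    linarith
  have hA1 : 1 ≤ A * (b - ε) := by
    have h1 : A * ε ≤ A * (b - ε) := mul_le_mul_of_nonneg_left (by linarith) hApos.le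
    linarith
  refine ⟨⌈b * L / ε⌉₊, fun p q hp hq v₀ => ?_⟩
  have hpε : b * L ≤ ε * p := by
    have h1 := Nat.le_ceil (b * L / ε)
    have h2 : (⌈b * L / ε⌉₊ : ℝ) ≤ p := by exact_mod_cast hp
    have h3 := h1.trans h2
    rw [div_le_iff₀ hε0] at h3
    linarith
  refine Pool.Agent.Perc.makerWins_of_invariant
    (fun M B => (↑M : Set (Sym2 V)) ⊆ E.G.edgeSet ∧ Disjoint M B ∧
      (M.card + B.card + 1 : ℝ) ≤ A * Psi E.toDat v₀ η M B) ?_ ?_ ?_
  · refine ⟨by simp, by simp, ?_⟩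
    have h1 := psi_init E.toDat v₀ η hη0.le hη ∅
    simp only [Finset.card_empty, Nat.cast_zero, zero_add]
    calc (1 : ℝ) = 1 / (E.h - η) * (E.h - η) := (one_div_mul_cancel hhη.ne').symm
      _ ≤ A * (E.h - η) := by
          apply mul_le_mul_of_nonneg_right _ hhη.le
          rw [hA]
          have : 0 ≤ (1 + b) / ε := by positivity
          linarith
      _ ≤ A * Psi E.toDat v₀ η ∅ ∅ := mul_le_mul_of_nonneg_left h1 hApos.le
  · rintro M B ⟨hME, hMB, hc⟩
    obtain ⟨X, hXE, hXd, hXc, hXP⟩ :=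
      turn E v₀ b ε η A hη0 hη hApos hA1 (by linarith) L hL (hS v₀) M B hc p
    refine ⟨X, hXc, hXE, hXd, fun Y hYc hYE hYd => ⟨?_, ?_, ?_⟩⟩
    · rw [Finset.coe_union]; exact Set.union_subset hME hXE
    · rw [Finset.disjoint_union_left, Finset.disjoint_union_right, Finset.disjoint_union_right]
      rw [Finset.disjoint_union_right] at hXd
      refine ⟨⟨hMB, ?_⟩, hXd.2, ?_⟩
      · exact (hYd.mono_right (Finset.subset_union_left.trans Finset.subset_union_left)).symm
      · exact (hYd.mono_right (Finset.subset_union_right.trans Finset.subset_union_left)).symm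
    · have h1 := psi_union_right E.toDat v₀ η hη0.le hη (M ∪ X) B Y
      rw [hYc] at h1
      have h2 : ((M ∪ X).card : ℝ) ≤ M.card + p := by
        have := Finset.card_union_le M X
        rw [hXc] at this
        exact_mod_cast this
      have h3 : ((B ∪ Y).card : ℝ) ≤ B.card + q := by
        have := Finset.card_union_le B Y
        rw [hYc] at this
        exact_mod_cast this
      have h4 : Psi E.toDat v₀ η M B + ε * p ≤ Psi E.toDat v₀ η (M ∪ X) (B ∪ Y) := by
        have h5 : (b - ε) * ((p : ℝ) - L) - q ≥ ε * p := by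
          have h6 : (b - ε) * (L : ℝ) ≤ b * L :=
            mul_le_mul_of_nonneg_right (by linarith) (Nat.cast_nonneg _)
          have h7 : (b - δ) * (p : ℝ) = (b - ε) * p - 2 * ε * p := by rw [hε]; ring
          rw [h7] at hq
          rw [mul_sub]
          linarith
        linarith
      have h8 : (q : ℝ) ≤ b * p := by
        have : 0 ≤ δ * (p : ℝ) := by positivity
        rw [sub_mul] at hq
        linarith
      have h9 := mul_le_mul_of_nonneg_left h4 hApos.le
      rw [mul_add] at h9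
      have h10 : (1 + b) * (p : ℝ) ≤ A * (ε * p) := by
        rw [← mul_assoc]
        exact mul_le_mul_of_nonneg_right hAε (Nat.cast_nonneg _)
      rw [add_mul] at h10
      linarith
  · rintro M B ⟨hME, hMB, hc⟩
    apply infinite_comp E.toDat v₀ η hη0 hη M B hME hMB
    have h1 : (0 : ℝ) < A * Psi E.toDat v₀ η M B := by
      have : (0 : ℝ) ≤ (M.card : ℝ) + B.card := by positivity
      linarith
    exact (mul_pos_iff_of_pos_left hApos).1 h1

end

end Pool.Agent.Helper33.Perc
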