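import Pool.Agent.Helper33.Perc.Defs
import Pool.Agent.Helper33.Perc.Compact
import Pool.Agent.Helper33.Perc.Turn

set_option autoImplicit false

/-!
The cut constant: existence of blocks, basic estimates and the limit.
-/

namespace Pool.Agent.Helper33.Perc

open scoped Classical
open Filter Topology

noncomputable section

variable {V : Type}

theorem image_edges {G : SimpleGraph V} (φ : G ≃g G) {M : Finset (Sym2 V)}
    (hM : (↑M : Set (Sym2 V)) ⊆ G.edgeSet) :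
    (↑(M.image (Sym2.map φ)) : Set (Sym2 V)) ⊆ G.edgeSet := by
  intro e he
  rw [Finset.mem_coe, Finset.mem_image] at he
  obtain ⟨e', he', rfl⟩ := he
  have h1 := hM he'
  induction e' using Sym2.ind with
  | _ x y =>
    rw [SimpleGraph.mem_edgeSet] at h1
    rw [Sym2.map_mk, SimpleGraph.mem_edgeSet]
    exact φ.map_rel_iff.2 h1

theorem adm_preimage {G : SimpleGraph V} (φ : G ≃g G) {M : Finset (Sym2 V)} {y : V}
    {W : Finset V} (hW : Adm (φ y) (M.image (Sym2.map φ)) W) : Adm y M (W.image φ.symm) := by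
  have hmem : ∀ z, z ∈ W.image φ.symm ↔ φ z ∈ W := by
    intro z
    rw [Finset.mem_image]
    constructor
    · rintro ⟨y, hy, rfl⟩; simpa using hy
    · intro h; exact ⟨φ z, h, by simp⟩
  refine ⟨(hmem y).2 hW.1, ?_⟩
  intro a ha b hb
  rw [hmem] at ha ⊢
  exact hW.2 (φ a) ha (φ b) (Finset.mem_image.2 ⟨s(a, b), hb, by simp⟩)

theorem freq_of_weak (E : Env V) (b : ℝ) (hb0 : 0 < b)
    (hw : ∀ δ : ℝ, 0 < δ → ∀ S0 : ℕ, ∃ n : ℕ, S0 ≤ n ∧ ∃ v : V, ∃ M : Finset (Sym2 V),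
      (↑M : Set (Sym2 V)) ⊆ E.G.edgeSet ∧ M.card = n ∧
        ∀ W, Adm v M W → (b - δ) * n ≤ (bd E.hlf W).card) : Freq E b := by
  intro δ hδ
  set ε := min (δ / (b + 2)) (b / 4) with hε
  have hε0 : 0 < ε := by rw [hε]; apply lt_min <;> positivity
  have hε1 : ε * (b + 2) ≤ δ := by
    have := min_le_left (δ / (b + 2)) (b / 4)
    rw [← hε, le_div_iff₀ (by positivity)] at this
    exact this
  have hε4 : ε ≤ b / 4 := min_le_right _ _
  obtain ⟨n₁, _, v₂, _⟩ := hw 1 one_pos 0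
  have hd0 : 0 < E.d := @Dat.d_pos V ⟨v₂⟩ E.toDat
  obtain ⟨R₀, hR₀⟩ := localize E.toDat hd0 ε ε hε0 hε0
  refine ⟨(E.d : ℝ) ^ R₀, fun S0 => ?_⟩
  obtain ⟨n, hn, v₁, M, hME, hMc, hMW⟩ := hw ε hε0 (max S0 1)
  have hnS : S0 ≤ n := le_trans (le_max_left _ _) hn
  have hn1 : 1 ≤ n := le_trans (le_max_right _ _) hn
  obtain ⟨P, hMP, hPE, hPc, hPm⟩ := merge E.toDat v₁ M hME ε hε0
  set s := ⌊(1 + ε) * (n : ℝ)⌋₊ with hs
  have hnn : (0 : ℝ) ≤ (n : ℝ) := Nat.cast_nonneg _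
  have hsn : n ≤ s := Nat.le_floor (by nlinarith)
  have hsle : (s : ℝ) ≤ (1 + ε) * n := Nat.floor_le (by positivity)
  set X := mcl P v₁ with hX
  set P' := ein P (nhk E.hlf R₀ X) with hP'
  have hP'P : P' ⊆ P := Finset.filter_subset _ _
  obtain ⟨y, hyX, hymax⟩ := Finset.exists_max_image X (rho E.G v₁) ⟨v₁, self_mem_mcl _ _⟩
  have hval : ∀ W, Adm y P' W → (b - 2 * ε) * n ≤ (bd E.hlf W).card := by
    intro W hW
    have hv₁ : v₁ ∈ W := by
      have h1 : mcl P y ⊆ W ∩ X := by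
        apply mcl_subset (Finset.mem_inter.2 ⟨hW.1, hyX⟩)
        intro a ha c hc
        rw [Finset.mem_inter] at ha ⊢
        have hcX : c ∈ X := closed_mcl P v₁ a ha.2 c hc
        have hR : X ⊆ nhk E.hlf R₀ X := nhk_mono E.hlf X (Nat.zero_le R₀)
        exact ⟨hW.2 a ha.1 c (mk_mem_ein.2 ⟨hc, hR ha.2, hR hcX⟩), hcX⟩
      exact (Finset.mem_inter.1 (h1 (mcl_symm hyX))).1
    have h2 := hR₀ v₁ M P hME (by omega) hMP hPm ((b - ε) * n) hMW W ⟨hv₁, hW.2⟩
    rw [hMc] at h2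
    linarith
  refine ⟨s, hnS.trans hsn, fun v₀ => ?_⟩
  obtain ⟨φ, hφ⟩ := E.trans y v₀
  refine ⟨P'.image (Sym2.map φ), image_edges φ ((Finset.coe_subset.2 hP'P).trans hPE), ?_, ?_, ?_⟩
  · refine Finset.card_image_le.trans ((Finset.card_le_card hP'P).trans ?_)
    apply Nat.le_floor
    rw [← hMc]; exact hPc
  · intro W hW
    rw [← hφ] at hW
    have h1 := hval _ (adm_preimage φ hW)
    rw [card_bd_image] at h1
    refine le_trans ?_ h1
    rcases le_or_gt b δ with hbδ | hbδ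
    · have h2 : (b - δ) * (s : ℝ) ≤ 0 :=
        mul_nonpos_of_nonpos_of_nonneg (by linarith) (Nat.cast_nonneg _)
      have h3 : 0 ≤ (b - 2 * ε) * (n : ℝ) := mul_nonneg (by linarith) hnn
      linarith
    · calc (b - δ) * (s : ℝ) ≤ (b - δ) * ((1 + ε) * n) :=
            mul_le_mul_of_nonneg_left hsle (by linarith)
        _ = ((b - δ) * (1 + ε)) * n := by ring
        _ ≤ (b - 2 * ε) * n := by
            apply mul_le_mul_of_nonneg_right _ hnn
            have : 0 ≤ δ * ε := by positivity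
            nlinarith
  · have hsub : insert y (ends P') ⊆ nhk E.hlf R₀ X := by
      intro z hz
      rw [Finset.mem_insert] at hz
      rcases hz with rfl | hz
      · exact nhk_mono E.hlf X (Nat.zero_le R₀) hyX
      · rw [mem_ends] at hz
        obtain ⟨e, he, hze⟩ := hz
        exact (mem_ein.1 he).2 z hze
    have hrho : ∀ z ∈ nhk E.hlf R₀ X, rho E.G y z ≤ 1 * (E.d : ℝ) ^ R₀ := by
      apply rho_nhk_le E.hlf E.conn E.d hd0 E.hd y 1 X
      intro x hx
      have h1 := hymax x hx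
      have h2 := rho_mul E.hlf E.conn v₁ y x
      have h3 := rho_pos E.hlf E.conn v₁ y
      rw [← h2] at h1
      by_contra hcon
      push Not at hcon
      nlinarith
    intro z hz
    have hz' : ∃ z' ∈ insert y (ends P'), z = φ z' := by
      rw [Finset.mem_insert] at hz
      rcases hz with rfl | hz
      · exact ⟨y, Finset.mem_insert_self _ _, hφ.symm⟩
      · rw [mem_ends] at hz
        obtain ⟨e, he, hze⟩ := hz
        rw [Finset.mem_image] at he
        obtain ⟨e', he', rfl⟩ := he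
        rw [Sym2.mem_map] at hze
        obtain ⟨z', hz', rfl⟩ := hze
        exact ⟨z', Finset.mem_insert_of_mem (mem_ends.2 ⟨e', he', hz'⟩), rfl⟩
    obtain ⟨z', hz1, rfl⟩ := hz'
    rw [← hφ, rho_map]
    have := hrho z' (hsub hz1)
    linarith

theorem edgeBoundary_eq {G : SimpleGraph V} (hlf : ∀ v, (G.neighborSet v).Finite)
    (W : Finset V) : edgeBoundary G W = (↑(bd hlf W) : Set (Sym2 V)) := by
  ext e
  rw [Finset.mem_coe, mem_bd]
  rfl

theorem edgeBoundary_ncard {G : SimpleGraph V} (hlf : ∀ v, (G.neighborSet v).Finite)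
    (W : Finset V) : (edgeBoundary G W).ncard = (bd hlf W).card := by
  rw [edgeBoundary_eq hlf, Set.ncard_coe_finset]

theorem adm_iff {G : SimpleGraph V} (v₀ : V) {M : Finset (Sym2 V)}
    (hM : (↑M : Set (Sym2 V)) ⊆ G.edgeSet) (W : Finset V) :
    (v₀ ∈ W ∧ ∀ e ∈ M, e ∉ edgeBoundary G W) ↔ Adm v₀ M W := by
  constructor
  · rintro ⟨h1, h2⟩
    refine ⟨h1, fun a ha b hb => ?_⟩
    by_contra hbW
    exact h2 _ hb ⟨a, ha, b, hbW, hM hb, rfl⟩
  · rintro ⟨h1, h2⟩
    refine ⟨h1, ?_⟩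
    rintro e he ⟨a, ha, b, hb, _, rfl⟩
    exact hb (h2 a ha b he)

section

variable {G : SimpleGraph V} (hlf : ∀ v, (G.neighborSet v).Finite)

theorem cutValue_le {v₀ : V} {M : Finset (Sym2 V)} (hM : (↑M : Set (Sym2 V)) ⊆ G.edgeSet)
    {W : Finset V} (hW : Adm v₀ M W) : cutValue G v₀ M ≤ (bd hlf W).card := by
  apply Nat.sInf_le
  have h := (adm_iff v₀ hM W).2 hW
  exact ⟨W, h.1, h.2, edgeBoundary_ncard hlf W⟩

theorem cutValue_attained {v₀ : V} {M : Finset (Sym2 V)}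
    (hM : (↑M : Set (Sym2 V)) ⊆ G.edgeSet) :
    ∃ W, Adm v₀ M W ∧ (bd hlf W).card = cutValue G v₀ M := by
  have hne : {k : ℕ | ∃ W : Finset V, v₀ ∈ W ∧ (∀ e ∈ M, e ∉ edgeBoundary G W) ∧
      (edgeBoundary G W).ncard = k}.Nonempty := by
    have h := (adm_iff v₀ hM _).2 (adm_insert_ends v₀ M)
    exact ⟨_, _, h.1, h.2, rfl⟩
  obtain ⟨W, h1, h2, h3⟩ := Nat.sInf_mem hne
  refine ⟨W, (adm_iff v₀ hM W).1 ⟨h1, h2⟩, ?_⟩
  rw [← edgeBoundary_ncard hlf]; exact h3

theorem cutValue_le_card (d : ℕ) (hd : ∀ v, (nb hlf v).card ≤ d) {v₀ : V}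
    {M : Finset (Sym2 V)} (hM : (↑M : Set (Sym2 V)) ⊆ G.edgeSet) :
    cutValue G v₀ M ≤ d * (2 * M.card + 1) := by
  refine (cutValue_le hlf hM (adm_insert_ends v₀ M)).trans ?_
  refine (card_bd_le hlf d hd _).trans (Nat.mul_le_mul_left _ ?_)
  have := card_ends_le M
  exact (Finset.card_insert_le _ _).trans (by omega)

theorem maxCut_bdd (d : ℕ) (hd : ∀ v, (nb hlf v).card ≤ d) (v₀ : V) (p : ℕ) :
    BddAbove {k : ℕ | ∃ M : Finset (Sym2 V), (↑M : Set (Sym2 V)) ⊆ G.edgeSet ∧ M.card = p ∧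
      cutValue G v₀ M = k} := by
  refine ⟨d * (2 * p + 1), ?_⟩
  rintro k ⟨M, hM, rfl, rfl⟩
  exact cutValue_le_card hlf d hd hM

theorem le_maxCut (d : ℕ) (hd : ∀ v, (nb hlf v).card ≤ d) (v₀ : V) {M : Finset (Sym2 V)}
    (hM : (↑M : Set (Sym2 V)) ⊆ G.edgeSet) : cutValue G v₀ M ≤ maxCut G v₀ M.card :=
  le_csSup (maxCut_bdd hlf d hd v₀ M.card) ⟨M, hM, rfl, rfl⟩

theorem maxCut_attained (d : ℕ) (hd : ∀ v, (nb hlf v).card ≤ d) (hinf : G.edgeSet.Infinite)
    (v₀ : V) (p : ℕ) : ∃ M : Finset (Sym2 V), (↑M : Set (Sym2 V)) ⊆ G.edgeSet ∧ M.card = p ∧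
      cutValue G v₀ M = maxCut G v₀ p := by
  obtain ⟨T, hT, hTc⟩ := hinf.exists_subset_card_eq p
  have hne : {k : ℕ | ∃ M : Finset (Sym2 V), (↑M : Set (Sym2 V)) ⊆ G.edgeSet ∧ M.card = p ∧
      cutValue G v₀ M = k}.Nonempty := ⟨cutValue G v₀ T, T, hT, hTc, rfl⟩
  exact Nat.sSup_mem hne (maxCut_bdd hlf d hd v₀ p)

theorem maxCut_le (d : ℕ) (hd : ∀ v, (nb hlf v).card ≤ d) (hinf : G.edgeSet.Infinite)
    (v₀ : V) (p : ℕ) : maxCut G v₀ p ≤ d * (2 * p + 1) := by
  obtain ⟨M, hM, hc, hv⟩ := maxCut_attained hlf d hd hinf v₀ p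
  rw [← hv, ← hc]
  exact cutValue_le_card hlf d hd hM

theorem maxCut_map_le (d : ℕ) (hd : ∀ v, (nb hlf v).card ≤ d) (hinf : G.edgeSet.Infinite)
    (φ : G ≃g G) (u : V) (p : ℕ) : maxCut G u p ≤ maxCut G (φ u) p := by
  obtain ⟨M, hM, hc, hv⟩ := maxCut_attained hlf d hd hinf u p
  have hM' := image_edges φ hM
  have hc' : (M.image (Sym2.map φ)).card = p := by
    rw [Finset.card_image_of_injective _ (Sym2.map.injective φ.injective), hc]
  have h1 := le_maxCut hlf d hd (φ u) hM'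
  rw [hc'] at h1
  refine le_trans ?_ h1
  obtain ⟨W, hW, hWc⟩ := cutValue_attained hlf (v₀ := φ u) hM'
  rw [← hWc, ← hv, ← card_bd_image hlf φ.symm W]
  exact cutValue_le hlf hM (adm_preimage φ hW)

end

theorem grow_block (D : Dat V) (v : V) (p : ℕ) : ∃ M : Finset (Sym2 V),
    (↑M : Set (Sym2 V)) ⊆ D.G.edgeSet ∧ M.card = p ∧ p + 1 ≤ (mcl M v).card := by
  induction p with
  | zero =>
    refine ⟨∅, by simp, by simp, ?_⟩
    exact Finset.card_pos.2 ⟨v, self_mem_mcl _ _⟩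
  | succ p ih =>
    obtain ⟨M, hM, hc, hm⟩ := ih
    have hne : (bd D.hlf (mcl M v)).Nonempty := by
      rw [Finset.nonempty_iff_ne_empty]
      intro h0
      have h1 := D.hna (mcl M v)
      rw [h0] at h1
      simp only [Finset.card_empty, Nat.cast_zero] at h1
      have h2 : (0 : ℝ) < (mcl M v).card := by
        exact_mod_cast Finset.card_pos.2 ⟨v, self_mem_mcl _ _⟩
      have := mul_pos D.hpos h2
      linarith
    obtain ⟨e, he⟩ := hne
    rw [mem_bd] at he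
    obtain ⟨a, ha, b, hb, hab, rfl⟩ := he
    have hnM : s(a, b) ∉ M := fun h => hb (closed_mcl M v a ha b h)
    refine ⟨insert s(a, b) M, ?_, ?_, ?_⟩
    · intro e he
      rw [Finset.mem_coe, Finset.mem_insert] at he
      rcases he with rfl | he
      · exact hab
      · exact hM he
    · rw [Finset.card_insert_of_notMem hnM, hc]
    · have h1 : insert b (mcl M v) ⊆ mcl (insert s(a, b) M) v := by
        have h2 : mcl M v ⊆ mcl (insert s(a, b) M) v :=
          mcl_subset (self_mem_mcl _ _) ((closed_mcl _ v).mono (Finset.subset_insert _ _))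
        intro x hx
        rw [Finset.mem_insert] at hx
        rcases hx with rfl | hx
        · exact closed_mcl _ v a (h2 ha) _ (Finset.mem_insert_self _ _)
        · exact h2 hx
      have h3 := Finset.card_le_card h1
      rw [Finset.card_insert_of_notMem hb] at h3
      omega

theorem maxCut_ge (D : Dat V) (v : V) (p : ℕ) : D.h * p ≤ maxCut D.G v p := by
  obtain ⟨M, hM, hc, hm⟩ := grow_block D v p
  have h1 := le_maxCut D.hlf D.d D.hd v hM
  rw [hc] at h1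
  obtain ⟨W, hW, hWc⟩ := cutValue_attained D.hlf (v₀ := v) hM
  have h2 : (maxCut D.G v p : ℝ) ≥ (bd D.hlf W).card := by
    rw [← hWc] at h1; exact_mod_cast h1
  have h3 := D.hna W
  have h4 : (p : ℝ) ≤ W.card := by
    have h5 := Finset.card_le_card (mcl_subset hW.1 hW.2)
    have h6 : p ≤ W.card := by omega
    exact_mod_cast h6
  have h5 := mul_le_mul_of_nonneg_left h4 D.hpos.le
  linarith

end

end Pool.Agent.Helper33.Perc
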