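import Mathlib

set_option autoImplicit false

/-!
Edge cuts of finite vertex sets in a locally finite graph: submodularity, splitting, shells.
-/

namespace Pool.Agent.Helper33.Perc

open scoped Classical

noncomputable section

variable {V : Type} {G : SimpleGraph V}

/-- neighbours of a vertex as a finite set -/
def nb (hlf : ∀ v, (G.neighborSet v).Finite) (v : V) : Finset V := (hlf v).toFinset

theorem mem_nb {hlf : ∀ v, (G.neighborSet v).Finite} {a b : V} :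
    b ∈ nb hlf a ↔ G.Adj a b := by
  simp [nb]

/-- edge boundary of a finite vertex set -/
def bd (hlf : ∀ v, (G.neighborSet v).Finite) (W : Finset V) : Finset (Sym2 V) :=
  W.biUnion fun a => ((nb hlf a).filter (· ∉ W)).image fun b => s(a, b)

theorem mem_bd {hlf : ∀ v, (G.neighborSet v).Finite} {W : Finset V} {e : Sym2 V} :
    e ∈ bd hlf W ↔ ∃ a ∈ W, ∃ b, b ∉ W ∧ G.Adj a b ∧ e = s(a, b) := by
  unfold bd
  simp only [Finset.mem_biUnion, Finset.mem_image, Finset.mem_filter, mem_nb]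
  constructor
  · rintro ⟨a, ha, b, ⟨hab, hb⟩, rfl⟩
    exact ⟨a, ha, b, hb, hab, rfl⟩
  · rintro ⟨a, ha, b, hb, hab, rfl⟩
    exact ⟨a, ha, b, ⟨hab, hb⟩, rfl⟩

theorem bd_subset_edgeSet {hlf : ∀ v, (G.neighborSet v).Finite} {W : Finset V} :
    (↑(bd hlf W) : Set (Sym2 V)) ⊆ G.edgeSet := by
  intro e he
  rw [Finset.mem_coe, mem_bd] at he
  obtain ⟨a, _, b, _, hab, rfl⟩ := he
  exact hab

/-- number of boundary edges outside `B` -/
def cw (hlf : ∀ v, (G.neighborSet v).Finite) (B : Finset (Sym2 V)) (W : Finset V) : ℕ :=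
  (bd hlf W \ B).card

theorem cw_submod (hlf : ∀ v, (G.neighborSet v).Finite) (B : Finset (Sym2 V))
    (A C : Finset V) :
    cw hlf B (A ∪ C) + cw hlf B (A ∩ C) ≤ cw hlf B A + cw hlf B C := by
  unfold cw
  have h1 : (bd hlf (A ∪ C) \ B) ∪ (bd hlf (A ∩ C) \ B) ⊆ (bd hlf A \ B) ∪ (bd hlf C \ B) := by
    intro e he
    simp only [Finset.mem_union, Finset.mem_sdiff] at he ⊢
    rcases he with ⟨he, hB⟩ | ⟨he, hB⟩
    · rw [mem_bd] at he
      obtain ⟨a, ha, b, hb, hab, rfl⟩ := he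
      rw [Finset.mem_union] at ha hb
      push Not at hb
      rcases ha with ha | ha
      · exact Or.inl ⟨mem_bd.2 ⟨a, ha, b, hb.1, hab, rfl⟩, hB⟩
      · exact Or.inr ⟨mem_bd.2 ⟨a, ha, b, hb.2, hab, rfl⟩, hB⟩
    · rw [mem_bd] at he
      obtain ⟨a, ha, b, hb, hab, rfl⟩ := he
      rw [Finset.mem_inter] at ha hb
      by_cases hbA : b ∈ A
      · have hbC : b ∉ C := fun h => hb ⟨hbA, h⟩
        exact Or.inr ⟨mem_bd.2 ⟨a, ha.2, b, hbC, hab, rfl⟩, hB⟩
      · exact Or.inl ⟨mem_bd.2 ⟨a, ha.1, b, hbA, hab, rfl⟩, hB⟩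
  have h2 : (bd hlf (A ∪ C) \ B) ∩ (bd hlf (A ∩ C) \ B) ⊆ (bd hlf A \ B) ∩ (bd hlf C \ B) := by
    intro e he
    simp only [Finset.mem_inter, Finset.mem_sdiff] at he ⊢
    obtain ⟨⟨he1, hB⟩, he2, _⟩ := he
    rw [mem_bd] at he1 he2
    obtain ⟨a, ha, b, hb, hab, rfl⟩ := he1
    obtain ⟨a', ha', b', hb', hab', he⟩ := he2
    rw [Finset.mem_union] at ha hb
    push Not at hb
    rw [Finset.mem_inter] at ha' hb'
    rw [Sym2.eq_iff] at he
    rcases he with ⟨rfl, rfl⟩ | ⟨rfl, rfl⟩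
    · exact ⟨⟨mem_bd.2 ⟨a, ha'.1, b, hb.1, hab, rfl⟩, hB⟩,
        ⟨mem_bd.2 ⟨a, ha'.2, b, hb.2, hab, rfl⟩, hB⟩⟩
    · exact absurd ha'.1 hb.1
  have h3 := Finset.card_le_card h1
  have h4 := Finset.card_le_card h2
  have h5 := Finset.card_union_add_card_inter (bd hlf (A ∪ C) \ B) (bd hlf (A ∩ C) \ B)
  have h6 := Finset.card_union_add_card_inter (bd hlf A \ B) (bd hlf C \ B)
  omega

/-- edges from `U` to `W` -/
def eb (hlf : ∀ v, (G.neighborSet v).Finite) (U W : Finset V) : Finset (Sym2 V) :=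
  U.biUnion fun a => ((nb hlf a).filter (· ∈ W)).image fun b => s(a, b)

theorem mem_eb {hlf : ∀ v, (G.neighborSet v).Finite} {U W : Finset V} {e : Sym2 V} :
    e ∈ eb hlf U W ↔ ∃ a ∈ U, ∃ b, b ∈ W ∧ G.Adj a b ∧ e = s(a, b) := by
  unfold eb
  simp only [Finset.mem_biUnion, Finset.mem_image, Finset.mem_filter, mem_nb]
  constructor
  · rintro ⟨a, ha, b, ⟨hab, hb⟩, rfl⟩
    exact ⟨a, ha, b, hb, hab, rfl⟩
  · rintro ⟨a, ha, b, hb, hab, rfl⟩
    exact ⟨a, ha, b, ⟨hab, hb⟩, rfl⟩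

theorem cw_split (hlf : ∀ v, (G.neighborSet v).Finite) (B : Finset (Sym2 V))
    (U W : Finset V) (hd : Disjoint U W) :
    cw hlf B W + cw hlf B U ≤ cw hlf B (W ∪ U) + 2 * (eb hlf U W).card := by
  unfold cw
  have h1 : (bd hlf W \ B) ∪ (bd hlf U \ B) ⊆ (bd hlf (W ∪ U) \ B) ∪ eb hlf U W := by
    intro e he
    simp only [Finset.mem_union, Finset.mem_sdiff] at he ⊢
    rcases he with ⟨he, hB⟩ | ⟨he, hB⟩
    · rw [mem_bd] at he
      obtain ⟨a, ha, b, hb, hab, rfl⟩ := he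
      by_cases hbU : b ∈ U
      · exact Or.inr (mem_eb.2 ⟨b, hbU, a, ha, hab.symm, Sym2.eq_swap⟩)
      · refine Or.inl ⟨mem_bd.2 ⟨a, Finset.mem_union_left _ ha, b, ?_, hab, rfl⟩, hB⟩
        rw [Finset.mem_union]; push Not; exact ⟨hb, hbU⟩
    · rw [mem_bd] at he
      obtain ⟨a, ha, b, hb, hab, rfl⟩ := he
      by_cases hbW : b ∈ W
      · exact Or.inr (mem_eb.2 ⟨a, ha, b, hbW, hab, rfl⟩)
      · refine Or.inl ⟨mem_bd.2 ⟨a, Finset.mem_union_right _ ha, b, ?_, hab, rfl⟩, hB⟩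
        rw [Finset.mem_union]; push Not; exact ⟨hbW, hb⟩
  have h2 : (bd hlf W \ B) ∩ (bd hlf U \ B) ⊆ eb hlf U W := by
    intro e he
    simp only [Finset.mem_inter, Finset.mem_sdiff] at he ⊢
    obtain ⟨⟨he1, hB⟩, he2, _⟩ := he
    rw [mem_bd] at he1 he2
    obtain ⟨a, ha, b, hb, hab, rfl⟩ := he1
    obtain ⟨a', ha', b', hb', hab', he⟩ := he2
    rw [Sym2.eq_iff] at he
    rcases he with ⟨rfl, rfl⟩ | ⟨rfl, rfl⟩
    · exact absurd ha (Finset.disjoint_left.1 hd ha')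
    · exact mem_eb.2 ⟨b, ha', a, ha, hab.symm, Sym2.eq_swap⟩
  have h3 := Finset.card_le_card h1
  have h4 := Finset.card_le_card h2
  have h5 := Finset.card_union_add_card_inter (bd hlf W \ B) (bd hlf U \ B)
  have h6 := Finset.card_union_le (bd hlf (W ∪ U) \ B) (eb hlf U W)
  omega

/-- edges incident to a finite set -/
def inc (hlf : ∀ v, (G.neighborSet v).Finite) (S : Finset V) : Finset (Sym2 V) :=
  S.biUnion fun b => (nb hlf b).image fun a => s(a, b)

theorem mem_inc {hlf : ∀ v, (G.neighborSet v).Finite} {S : Finset V} {e : Sym2 V} :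
    e ∈ inc hlf S ↔ ∃ b ∈ S, ∃ a, G.Adj a b ∧ e = s(a, b) := by
  unfold inc
  simp only [Finset.mem_biUnion, Finset.mem_image, mem_nb]
  constructor
  · rintro ⟨b, hb, a, hab, rfl⟩
    exact ⟨b, hb, a, hab.symm, rfl⟩
  · rintro ⟨b, hb, a, hab, rfl⟩
    exact ⟨b, hb, a, hab.symm, rfl⟩

theorem card_inc_le (hlf : ∀ v, (G.neighborSet v).Finite) (d : ℕ)
    (hd : ∀ v, (nb hlf v).card ≤ d) (S : Finset V) : (inc hlf S).card ≤ d * S.card := by
  unfold inc
  calc _ ≤ ∑ b ∈ S, ((nb hlf b).image fun a => s(a, b)).card := Finset.card_biUnion_le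
    _ ≤ ∑ b ∈ S, d := Finset.sum_le_sum fun b _ => Finset.card_image_le.trans (hd b)
    _ = d * S.card := by rw [Finset.sum_const, smul_eq_mul, mul_comm]

theorem card_eb_le (hlf : ∀ v, (G.neighborSet v).Finite) (d : ℕ)
    (hd : ∀ v, (nb hlf v).card ≤ d) (U W S : Finset V)
    (hS : ∀ a ∈ U, ∀ b ∈ W, G.Adj a b → b ∈ S) : (eb hlf U W).card ≤ d * S.card := by
  refine (Finset.card_le_card ?_).trans (card_inc_le hlf d hd S)
  intro e he
  rw [mem_eb] at he
  obtain ⟨a, ha, b, hb, hab, rfl⟩ := he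
  exact mem_inc.2 ⟨b, hS a ha b hb hab, a, hab, rfl⟩

theorem card_bd_le (hlf : ∀ v, (G.neighborSet v).Finite) (d : ℕ)
    (hd : ∀ v, (nb hlf v).card ≤ d) (W : Finset V) : (bd hlf W).card ≤ d * W.card := by
  refine (Finset.card_le_card ?_).trans (card_inc_le hlf d hd W)
  intro e he
  rw [mem_bd] at he
  obtain ⟨a, ha, b, hb, hab, rfl⟩ := he
  exact mem_inc.2 ⟨a, ha, b, hab.symm, Sym2.eq_swap⟩

theorem cw_le (hlf : ∀ v, (G.neighborSet v).Finite) (B : Finset (Sym2 V)) (W : Finset V) :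
    cw hlf B W ≤ (bd hlf W).card := Finset.card_le_card Finset.sdiff_subset

theorem le_cw (hlf : ∀ v, (G.neighborSet v).Finite) (B : Finset (Sym2 V)) (W : Finset V) :
    (bd hlf W).card ≤ cw hlf B W + B.card := by
  unfold cw
  have := Finset.le_card_sdiff B (bd hlf W)
  omega

theorem le_cw_union (hlf : ∀ v, (G.neighborSet v).Finite) (B Q : Finset (Sym2 V))
    (W : Finset V) : cw hlf B W ≤ cw hlf (B ∪ Q) W + Q.card := by
  unfold cw
  have h : bd hlf W \ B ⊆ (bd hlf W \ (B ∪ Q)) ∪ Q := by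
    intro e he
    simp only [Finset.mem_union, Finset.mem_sdiff] at he ⊢
    tauto
  exact (Finset.card_le_card h).trans (Finset.card_union_le _ _)

/-- closed neighbourhood -/
def nh (hlf : ∀ v, (G.neighborSet v).Finite) (X : Finset V) : Finset V :=
  X ∪ X.biUnion (nb hlf)

theorem mem_nh {hlf : ∀ v, (G.neighborSet v).Finite} {X : Finset V} {b : V} :
    b ∈ nh hlf X ↔ b ∈ X ∨ ∃ a ∈ X, G.Adj a b := by
  simp [nh, mem_nb]

theorem card_nh_le (hlf : ∀ v, (G.neighborSet v).Finite) (d : ℕ)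
    (hd : ∀ v, (nb hlf v).card ≤ d) (X : Finset V) : (nh hlf X).card ≤ (d + 1) * X.card := by
  unfold nh
  calc _ ≤ X.card + (X.biUnion (nb hlf)).card := Finset.card_union_le _ _
    _ ≤ X.card + ∑ b ∈ X, (nb hlf b).card := by gcongr; exact Finset.card_biUnion_le
    _ ≤ X.card + ∑ b ∈ X, d := by gcongr with b _; exact hd b
    _ = (d + 1) * X.card := by rw [Finset.sum_const, smul_eq_mul]; ring

/-- iterated closed neighbourhood -/
def nhk (hlf : ∀ v, (G.neighborSet v).Finite) : ℕ → Finset V → Finset V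
  | 0, X => X
  | k + 1, X => nh hlf (nhk hlf k X)

theorem card_nhk_le (hlf : ∀ v, (G.neighborSet v).Finite) (d : ℕ)
    (hd : ∀ v, (nb hlf v).card ≤ d) (X : Finset V) (k : ℕ) :
    (nhk hlf k X).card ≤ (d + 1) ^ k * X.card := by
  induction k with
  | zero => simp [nhk]
  | succ k ih =>
    calc _ ≤ (d + 1) * (nhk hlf k X).card := card_nh_le hlf d hd _
      _ ≤ (d + 1) * ((d + 1) ^ k * X.card) := by gcongr
      _ = _ := by ring

theorem nhk_subset_succ (hlf : ∀ v, (G.neighborSet v).Finite) (X : Finset V) (k : ℕ) :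
    nhk hlf k X ⊆ nhk hlf (k + 1) X := by
  intro a ha
  exact mem_nh.2 (Or.inl ha)

theorem nhk_mono (hlf : ∀ v, (G.neighborSet v).Finite) (X : Finset V) :
    Monotone fun k => nhk hlf k X :=
  monotone_nat_of_le_succ (nhk_subset_succ hlf X)

theorem adj_mem_nhk (hlf : ∀ v, (G.neighborSet v).Finite) {X : Finset V} {k : ℕ} {a b : V}
    (ha : a ∈ nhk hlf k X) (hab : G.Adj a b) : b ∈ nhk hlf (k + 1) X :=
  mem_nh.2 (Or.inr ⟨a, ha, hab⟩)

theorem nhk_image (hlf : ∀ v, (G.neighborSet v).Finite) (φ : G ≃g G) (X : Finset V) (k : ℕ) :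
    nhk hlf k (X.image φ) = (nhk hlf k X).image φ := by
  induction k with
  | zero => simp [nhk]
  | succ k ih =>
    ext b
    simp only [nhk]
    rw [mem_nh, ih]
    simp only [Finset.mem_image]
    constructor
    · rintro (⟨a, ha, rfl⟩ | ⟨_, ⟨a, ha, rfl⟩, hab⟩)
      · exact ⟨a, mem_nh.2 (Or.inl ha), rfl⟩
      · refine ⟨φ.symm b, mem_nh.2 (Or.inr ⟨a, ha, ?_⟩), by simp⟩
        have := φ.symm.map_adj_iff.2 hab
        simpa using this
    · rintro ⟨a, ha, rfl⟩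
      rw [mem_nh] at ha
      rcases ha with ha | ⟨c, hc, hca⟩
      · exact Or.inl ⟨a, ha, rfl⟩
      · exact Or.inr ⟨φ c, ⟨c, hc, rfl⟩, φ.map_adj_iff.2 hca⟩

theorem bd_image (hlf : ∀ v, (G.neighborSet v).Finite) (φ : G ≃g G) (W : Finset V) :
    bd hlf (W.image φ) = (bd hlf W).image (Sym2.map φ) := by
  ext e
  rw [mem_bd, Finset.mem_image]
  constructor
  · rintro ⟨a, ha, b, hb, hab, rfl⟩
    rw [Finset.mem_image] at ha
    obtain ⟨a, ha, rfl⟩ := ha
    refine ⟨s(a, φ.symm b), mem_bd.2 ⟨a, ha, φ.symm b, ?_, ?_, rfl⟩, by simp⟩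
    · intro h
      exact hb (Finset.mem_image.2 ⟨_, h, by simp⟩)
    · have := φ.symm.map_adj_iff.2 hab
      simpa using this
  · rintro ⟨e, he, rfl⟩
    rw [mem_bd] at he
    obtain ⟨a, ha, b, hb, hab, rfl⟩ := he
    refine ⟨φ a, Finset.mem_image_of_mem _ ha, φ b, ?_, φ.map_adj_iff.2 hab, by simp⟩
    intro h
    rw [Finset.mem_image] at h
    obtain ⟨c, hc, hcb⟩ := h
    rw [φ.injective hcb] at hc
    exact hb hc

theorem card_bd_image (hlf : ∀ v, (G.neighborSet v).Finite) (φ : G ≃g G) (W : Finset V) :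
    (bd hlf (W.image φ)).card = (bd hlf W).card := by
  rw [bd_image]
  exact Finset.card_image_of_injective _ (Sym2.map.injective φ.injective)

end

end Pool.Agent.Helper33.Perc
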