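import Mathlib

set_option autoImplicit false

/-!
Cut constants of a graph.
-/

namespace Pool.Agent.Helper33.Perc

variable {V : Type}

/-- the edges of `G` with exactly one endpoint in `W` -/
def edgeBoundary (G : SimpleGraph V) (W : Finset V) : Set (Sym2 V) :=
  {e | ∃ a ∈ W, ∃ b, b ∉ W ∧ G.Adj a b ∧ e = s(a, b)}

/-- the least size of the edge boundary of a finite set of vertices which contains `v₀` and whose
edge boundary avoids `M` -/
noncomputable def cutValue (G : SimpleGraph V) (v₀ : V) (M : Finset (Sym2 V)) : ℕ :=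
  sInf {k : ℕ | ∃ W : Finset V, v₀ ∈ W ∧ (∀ e ∈ M, e ∉ edgeBoundary G W) ∧
    (edgeBoundary G W).ncard = k}

/-- the largest value of `cutValue G v₀ M` for a set `M` of `p` edges of `G` -/
noncomputable def maxCut (G : SimpleGraph V) (v₀ : V) (p : ℕ) : ℕ :=
  sSup {k : ℕ | ∃ M : Finset (Sym2 V), (↑M : Set (Sym2 V)) ⊆ G.edgeSet ∧ M.card = p ∧
    cutValue G v₀ M = k}

end Pool.Agent.Helper33.Perc
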