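import Pool.Agent.Helper33.Perc.Pot

set_option autoImplicit false

/-!
Exponential growth of the region Maker can reach cheaply.
-/

namespace Pool.Agent.Helper33.Perc

open scoped Classical

noncomputable section

variable {V : Type}

/-- `x` can be forced into every cut at the cost of `j` unclaimed edges -/
def Reach (D : Dat V) (v₀ : V) (M B : Finset (Sym2 V)) (j : ℕ) (x : V) : Prop :=
  ∃ P : Finset (Sym2 V), P.card ≤ j ∧ (↑P : Set (Sym2 V)) ⊆ D.G.edgeSet ∧ Disjoint P (M ∪ B) ∧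
    ∀ W : Finset V, v₀ ∈ W → Closed (M ∪ P) W → x ∈ W

theorem Reach.mono {D : Dat V} {v₀ : V} {M B : Finset (Sym2 V)} {j k : ℕ} {x : V}
    (h : Reach D v₀ M B j x) (hjk : j ≤ k) : Reach D v₀ M B k x := by
  obtain ⟨P, h1, h2, h3, h4⟩ := h
  exact ⟨P, h1.trans hjk, h2, h3, h4⟩

/-- `M`-component of `x` -/
def mcl (M : Finset (Sym2 V)) (x : V) : Finset V :=
  (insert x (ends M)).filter (fun y => ∀ W : Finset V, x ∈ W → Closed M W → y ∈ W)

theorem mem_mcl {M : Finset (Sym2 V)} {x y : V} :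
    y ∈ mcl M x ↔ ∀ W : Finset V, x ∈ W → Closed M W → y ∈ W := by
  unfold mcl
  rw [Finset.mem_filter]
  constructor
  · exact fun h => h.2
  · intro h
    exact ⟨h _ (Finset.mem_insert_self _ _) (closed_insert_ends M x), h⟩

theorem self_mem_mcl (M : Finset (Sym2 V)) (x : V) : x ∈ mcl M x :=
  mem_mcl.2 fun _ h _ => h

theorem closed_mcl (M : Finset (Sym2 V)) (x : V) : Closed M (mcl M x) := by
  intro a ha b hb
  rw [mem_mcl] at ha ⊢
  exact fun W hx hW => hW a (ha W hx hW) b hb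

theorem reach_mcl {D : Dat V} {v₀ : V} {M B : Finset (Sym2 V)} {j : ℕ} {x y : V}
    (h : Reach D v₀ M B j x) (hy : y ∈ mcl M x) : Reach D v₀ M B j y := by
  obtain ⟨P, h1, h2, h3, h4⟩ := h
  refine ⟨P, h1, h2, h3, fun W hv hW => ?_⟩
  exact mem_mcl.1 hy W (h4 W hv hW) (hW.mono Finset.subset_union_left)

theorem grow_step (D : Dat V) (v₀ : V) (M B : Finset (Sym2 V)) (j : ℕ) (N : Finset V)
    (hN : Adm v₀ M N) (hR : ∀ x ∈ N, Reach D v₀ M B j x) :
    ∃ N' : Finset V, Adm v₀ M N' ∧ (∀ x ∈ N', Reach D v₀ M B (j + 1) x) ∧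
      D.d * N.card + cw D.hlf B N ≤ D.d * N'.card := by
  -- outer endpoints
  set O : Finset V := (N.biUnion (nb D.hlf)).filter
    (fun b => b ∉ N ∧ ∃ a ∈ N, D.G.Adj a b ∧ s(a, b) ∉ B) with hO
  have hOR : ∀ b ∈ O, Reach D v₀ M B (j + 1) b := by
    intro b hb
    rw [hO, Finset.mem_filter] at hb
    obtain ⟨_, hbN, a, ha, hab, haB⟩ := hb
    obtain ⟨P, h1, h2, h3, h4⟩ := hR a ha
    refine ⟨insert s(a, b) P, ?_, ?_, ?_, ?_⟩
    · exact (Finset.card_insert_le _ _).trans (by omega)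
    · intro e he
      rw [Finset.mem_coe, Finset.mem_insert] at he
      rcases he with rfl | he
      · exact hab
      · exact h2 he
    · rw [Finset.disjoint_insert_left]
      refine ⟨?_, h3⟩
      rw [Finset.mem_union]
      push Not
      exact ⟨fun h => hbN (hN.2 a ha b h), haB⟩
    · intro W hv hW
      have haW : a ∈ W := h4 W hv (hW.mono (by
        intro e he
        rw [Finset.mem_union] at he ⊢
        rcases he with he | he
        · exact Or.inl he
        · exact Or.inr (Finset.mem_insert_of_mem he)))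
      exact hW a haW b (Finset.mem_union_right _ (Finset.mem_insert_self _ _))
  refine ⟨(N ∪ O).biUnion (mcl M), ⟨?_, ?_⟩, ?_, ?_⟩
  · rw [Finset.mem_biUnion]
    exact ⟨v₀, Finset.mem_union_left _ hN.1, self_mem_mcl M v₀⟩
  · intro a ha b hb
    rw [Finset.mem_biUnion] at ha ⊢
    obtain ⟨x, hx, ha⟩ := ha
    exact ⟨x, hx, closed_mcl M x a ha b hb⟩
  · intro y hy
    rw [Finset.mem_biUnion] at hy
    obtain ⟨x, hx, hy⟩ := hy
    rw [Finset.mem_union] at hx
    rcases hx with hx | hx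
    · exact reach_mcl ((hR x hx).mono (Nat.le_succ j)) hy
    · exact reach_mcl (hOR x hx) hy
  · have h1 : N ∪ O ⊆ (N ∪ O).biUnion (mcl M) := by
      intro x hx
      exact Finset.mem_biUnion.2 ⟨x, hx, self_mem_mcl M x⟩
    have h2 : (N ∪ O).card = N.card + O.card := by
      apply Finset.card_union_of_disjoint
      rw [Finset.disjoint_right]
      intro b hb
      rw [hO, Finset.mem_filter] at hb
      exact hb.2.1
    have h3 : cw D.hlf B N ≤ D.d * O.card := by
      unfold cw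
      refine (Finset.card_le_card ?_).trans (card_inc_le D.hlf D.d D.hd O)
      intro e he
      rw [Finset.mem_sdiff, mem_bd] at he
      obtain ⟨⟨a, ha, b, hb, hab, rfl⟩, heB⟩ := he
      refine mem_inc.2 ⟨b, ?_, a, hab, rfl⟩
      rw [hO, Finset.mem_filter, Finset.mem_biUnion]
      exact ⟨⟨a, ha, mem_nb.2 hab⟩, hb, a, ha, hab, heB⟩
    have h4 := Finset.card_le_card h1
    calc D.d * N.card + cw D.hlf B N ≤ D.d * N.card + D.d * O.card := by omega
      _ = D.d * (N ∪ O).card := by rw [h2]; ring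
      _ ≤ _ := Nat.mul_le_mul_left _ h4

theorem grow (D : Dat V) (v₀ : V) (η : ℝ) (hη0 : 0 < η) (hη : η < D.h) (hd : 0 < D.d)
    (M B : Finset (Sym2 V)) (j : ℕ) :
    ∃ N : Finset V, Adm v₀ M N ∧ (∀ x ∈ N, Reach D v₀ M B j x) ∧
      Psi D v₀ η M B / η * ((1 + η / D.d) ^ j - 1) ≤ N.card := by
  induction j with
  | zero =>
    refine ⟨mcl M v₀, ⟨self_mem_mcl M v₀, closed_mcl M v₀⟩, ?_, ?_⟩
    · intro x hx
      refine ⟨∅, by simp, by simp, by simp, ?_⟩
      intro W hv hW
      rw [mem_mcl] at hx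
      exact hx W hv (hW.mono Finset.subset_union_left)
    · simp
  | succ j ih =>
    obtain ⟨N, hN, hR, hc⟩ := ih
    obtain ⟨N', hN', hR', hc'⟩ := grow_step D v₀ M B j N hN hR
    refine ⟨N', hN', hR', ?_⟩
    have hdR : (0 : ℝ) < D.d := by exact_mod_cast hd
    have h1 := psi_le D v₀ η hη0.le hη (B := B) hN
    unfold gg at h1
    have h2 : (D.d : ℝ) * N.card + cw D.hlf B N ≤ D.d * N'.card := by exact_mod_cast hc'
    have h3 : (D.d : ℝ) * N.card + (Psi D v₀ η M B + η * N.card) ≤ D.d * N'.card := by linarith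
    have h4 : (N.card : ℝ) * (1 + η / D.d) + Psi D v₀ η M B / D.d ≤ N'.card := by
      rw [← mul_le_mul_iff_right₀ hdR]
      calc (D.d : ℝ) * (N.card * (1 + η / D.d) + Psi D v₀ η M B / D.d)
          = D.d * N.card + (Psi D v₀ η M B + η * N.card) := by field_simp; ring
        _ ≤ _ := h3
    refine le_trans ?_ h4
    have h5 : Psi D v₀ η M B / η * ((1 + η / D.d) ^ (j + 1) - 1) =
        Psi D v₀ η M B / η * ((1 + η / D.d) ^ j - 1) * (1 + η / D.d) +
          Psi D v₀ η M B / D.d := by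
      rw [pow_succ]; field_simp; ring
    rw [h5]
    have : (0 : ℝ) ≤ 1 + η / D.d := by positivity
    gcongr

end

end Pool.Agent.Helper33.Perc
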