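import Pool.Agent.Helper33.Perc.Modular

set_option autoImplicit false

/-!
Placement of a finite pattern by an automorphism of a transitive graph.
-/

namespace Pool.Agent.Helper33.Perc

open scoped Classical

noncomputable section

variable {V : Type} {G : SimpleGraph V}

theorem placement (hlf : ∀ v, (G.neighborSet v).Finite) (hconn : G.Connected)
    (htrans : ∀ u v, ∃ φ : G ≃g G, φ u = v) (v₀ : V) (T Bad N : Finset V)
    (hcard : (∑ y ∈ T, rho G v₀ y) * Bad.card < N.card) :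
    ∃ φ : G ≃g G, φ v₀ ∈ N ∧ ∀ y ∈ T, φ y ∉ Bad := by
  by_contra hcon
  push Not at hcon
  -- common radius
  have hK : ∃ K, ∀ y ∈ T, y ∈ nhk hlf K {v₀} := by
    choose k hk using fun y => exists_nhk hlf hconn v₀ y
    refine ⟨T.sup k, fun y hy => ?_⟩
    exact nhk_mono hlf {v₀} (Finset.le_sup hy) (hk y)
  obtain ⟨K, hK⟩ := hK
  -- restrictions
  set R : V → Set (T → V) := fun x => {ρ | ∃ φ : G ≃g G, φ v₀ = x ∧ ∀ y : T, ρ y = φ y} with hR
  have hfin : ∀ x, (R x).Finite := by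
    intro x
    refine (Set.Finite.pi' (fun _ : T => (nhk hlf K {x}).finite_toSet)).subset ?_
    rintro ρ ⟨φ, h1, h2⟩ y
    have := map_mem_nhk hlf φ (hK y y.2)
    rw [h1] at this
    rw [h2 y]
    exact this
  set RF : V → Finset (T → V) := fun x => (hfin x).toFinset with hRF
  have memRF : ∀ x ρ, ρ ∈ RF x ↔ ∃ φ : G ≃g G, φ v₀ = x ∧ ∀ y : T, ρ y = φ y := by
    intro x ρ
    simp [hRF, hR]
  set F := (RF v₀).card with hF
  have hFpos : 0 < F := by
    rw [hF, Finset.card_pos]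
    refine ⟨fun y => y, (memRF _ _).2 ⟨1, rfl, fun y => rfl⟩⟩
  have hRcard : ∀ x, (RF x).card = F := by
    intro x
    obtain ⟨φ, hx⟩ := htrans v₀ x
    have : RF x = (RF v₀).image (fun ρ y => φ (ρ y)) := by
      ext ρ
      rw [memRF, Finset.mem_image]
      constructor
      · rintro ⟨ψ, h1, h2⟩
        refine ⟨fun y => (φ⁻¹ * ψ) y, (memRF _ _).2 ⟨φ⁻¹ * ψ, ?_,
          fun y => rfl⟩, ?_⟩
        · show φ.symm (ψ v₀) = v₀
          rw [h1, ← hx]; simp
        · funext y
          show φ (φ.symm (ψ y)) = ρ y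
          rw [h2 y]; simp
      · rintro ⟨ρ', h', rfl⟩
        obtain ⟨ψ, h1, h2⟩ := (memRF _ _).1 h'
        refine ⟨φ * ψ, ?_, fun y => ?_⟩
        · show φ (ψ v₀) = x
          rw [h1, hx]
        · show φ (ρ' y) = φ (ψ y)
          rw [h2 y]
    rw [this, Finset.card_image_of_injective]
    intro ρ ρ' h
    funext y
    exact φ.injective (congrFun h y)
  -- fibres
  have hfib : ∀ (x : V) (p : T × V),
      ((RF x).filter (fun ρ => ρ p.1 = p.2)).card * (orb G v₀ p.1).ncard ≤ F := by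
    rintro x ⟨y, z⟩
    simp only
    rcases (((RF x).filter (fun ρ => ρ y = z))).eq_empty_or_nonempty with he | ⟨ρ₀, hρ₀⟩
    · rw [he]; simp
    · rw [Finset.mem_filter, memRF] at hρ₀
      obtain ⟨⟨φ, hφx, hφy⟩, hρz⟩ := hρ₀
      have hφyz : φ y = z := by rw [← hφy y, hρz]
      set O := (orb_finite hlf hconn v₀ (y : V)).toFinset with hO
      have hOc : (orb G v₀ (y : V)).ncard = O.card := by
        rw [hO, Set.ncard_eq_toFinset_card _ (orb_finite hlf hconn v₀ (y : V))]
      have hch : ∀ w : V, ∃ ψ : G ≃g G, (w ∈ O → ψ v₀ = v₀ ∧ ψ y = w) := by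
        intro w
        by_cases hw : w ∈ O
        · rw [hO, Set.Finite.mem_toFinset] at hw
          obtain ⟨ψ, h2, h3⟩ := hw
          exact ⟨ψ, fun _ => ⟨h2, h3⟩⟩
        · exact ⟨1, fun h => absurd h hw⟩
      choose ψ hψ using hch
      rw [hOc, ← Finset.card_product, ← hRcard x]
      refine Finset.card_le_card_of_injOn
        (fun q => fun t => φ (ψ q.2 (φ.symm (q.1 t)))) ?_ ?_
      · rintro ⟨ρ, w⟩ hq
        rw [Finset.mem_coe, Finset.mem_product, Finset.mem_filter, memRF] at hq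
        obtain ⟨⟨⟨θ, hθx, hθy⟩, _⟩, hw⟩ := hq
        rw [Finset.mem_coe, memRF]
        refine ⟨φ * ψ w * φ⁻¹ * θ, ?_, fun t => ?_⟩
        · show φ (ψ w (φ.symm (θ v₀))) = x
          rw [hθx, ← hφx]
          simp only [RelIso.symm_apply_apply]
          rw [(hψ w hw).1]
        · have h7 : ρ t = θ t := hθy t
          show φ (ψ w (φ.symm (ρ t))) = φ (ψ w (φ.symm (θ t)))
          rw [h7]
      · rintro ⟨ρ, w⟩ hq ⟨ρ', w'⟩ hq' h
        rw [Finset.mem_coe, Finset.mem_product, Finset.mem_filter] at hq hq'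
        have hq1 : ρ y = z := hq.1.2
        have hq2 : ρ' y = z := hq'.1.2
        have hq3 : w ∈ O := hq.2
        have hq4 : w' ∈ O := hq'.2
        have h1 : φ (ψ w (φ.symm (ρ y))) = φ (ψ w' (φ.symm (ρ' y))) := congrFun h y
        rw [hq1, hq2, ← hφyz] at h1
        simp only [RelIso.symm_apply_apply] at h1
        rw [(hψ w hq3).2, (hψ w' hq4).2] at h1
        have hww := φ.injective h1
        subst hww
        have : ρ = ρ' := by
          funext t
          have h2 : φ (ψ w (φ.symm (ρ t))) = φ (ψ w (φ.symm (ρ' t))) := congrFun h t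
          exact φ.symm.injective ((ψ w).injective (φ.injective h2))
        rw [this]
  have hpos : ∀ y : V, 0 < (orb G v₀ y).ncard := by
    intro y
    rw [Set.ncard_pos (orb_finite hlf hconn v₀ y)]
    exact ⟨y, 1, rfl, rfl⟩
  -- sources
  have hsrc : ∀ p : T × V,
      (N.filter (fun x => ((RF x).filter (fun ρ => ρ p.1 = p.2)).Nonempty)).card ≤
        (orb G p.1 v₀).ncard := by
    rintro ⟨y, z⟩
    simp only
    rcases (N.filter (fun x => ((RF x).filter (fun ρ => ρ y = z)).Nonempty)).eq_empty_or_nonempty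
      with he | ⟨x₀, hx₀⟩
    · rw [he]; simp
    · rw [Finset.mem_filter] at hx₀
      obtain ⟨_, ρ₀, hρ₀⟩ := hx₀
      rw [Finset.mem_filter, memRF] at hρ₀
      obtain ⟨⟨φ, hφx, hφy⟩, hρz⟩ := hρ₀
      have hφyz : φ y = z := by rw [← hφy y, hρz]
      rw [Set.ncard_eq_toFinset_card _ (orb_finite hlf hconn (y : V) v₀)]
      refine Finset.card_le_card_of_injOn (fun x => φ.symm x) ?_ (φ.symm.injective.injOn)
      intro x hx
      rw [Finset.mem_coe, Finset.mem_filter] at hx
      obtain ⟨_, ρ, hρ⟩ := hx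
      rw [Finset.mem_filter, memRF] at hρ
      obtain ⟨⟨θ, hθx, hθy⟩, hρz'⟩ := hρ
      have hθyz : θ y = z := by rw [← hθy y, hρz']
      rw [Finset.mem_coe, Set.Finite.mem_toFinset]
      refine ⟨φ⁻¹ * θ, ?_, ?_⟩
      · show φ.symm (θ y) = y
        rw [hθyz, ← hφyz]; simp
      · show φ.symm (θ v₀) = φ.symm x
        rw [hθx]
  have hcol : ∀ p : T × V,
      ((∑ x ∈ N, ((RF x).filter (fun ρ => ρ p.1 = p.2)).card : ℕ) : ℝ) ≤
        F * rho G v₀ p.1 := by
    intro p
    have h1 : (∑ x ∈ N, ((RF x).filter (fun ρ => ρ p.1 = p.2)).card) * (orb G v₀ p.1).ncard ≤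
        F * (orb G p.1 v₀).ncard := by
      rw [Finset.sum_mul]
      rw [← Finset.sum_filter_add_sum_filter_not N
        (fun x => ((RF x).filter (fun ρ => ρ p.1 = p.2)).Nonempty)]
      have h2 : ∑ x ∈ N.filter (fun x => ¬ ((RF x).filter (fun ρ => ρ p.1 = p.2)).Nonempty),
          ((RF x).filter (fun ρ => ρ p.1 = p.2)).card * (orb G v₀ p.1).ncard = 0 := by
        refine Finset.sum_eq_zero fun x hx => ?_
        rw [Finset.mem_filter, Finset.not_nonempty_iff_eq_empty] at hx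
        rw [hx.2]; simp
      rw [h2, add_zero]
      calc _ ≤ ∑ x ∈ N.filter (fun x => ((RF x).filter (fun ρ => ρ p.1 = p.2)).Nonempty), F :=
            Finset.sum_le_sum fun x _ => hfib x p
        _ = (N.filter (fun x => ((RF x).filter (fun ρ => ρ p.1 = p.2)).Nonempty)).card * F := by
            rw [Finset.sum_const, smul_eq_mul]
        _ ≤ (orb G p.1 v₀).ncard * F := Nat.mul_le_mul_right _ (hsrc p)
        _ = _ := mul_comm _ _
    have h3 : (0 : ℝ) < (orb G v₀ p.1).ncard := by exact_mod_cast hpos _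
    unfold rho
    rw [← mul_div_assoc, le_div_iff₀ h3]
    exact_mod_cast h1
  have hrow : ∀ x ∈ N, F ≤ ∑ p ∈ (Finset.univ : Finset T) ×ˢ Bad,
      ((RF x).filter (fun ρ => ρ p.1 = p.2)).card := by
    intro x hx
    rw [← hRcard x]
    refine le_trans (Finset.card_le_card ?_) Finset.card_biUnion_le
    intro ρ hρ
    have hρ' := hρ
    rw [memRF] at hρ'
    obtain ⟨φ, hφx, hφy⟩ := hρ'
    obtain ⟨y, hy, hyB⟩ := hcon φ (by rw [hφx]; exact hx)
    rw [Finset.mem_biUnion]
    refine ⟨(⟨y, hy⟩, φ y), ?_, ?_⟩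
    · rw [Finset.mem_product]; exact ⟨Finset.mem_univ _, hyB⟩
    · rw [Finset.mem_filter]; exact ⟨hρ, hφy ⟨y, hy⟩⟩
  have htot : N.card * F ≤ ∑ p ∈ (Finset.univ : Finset T) ×ˢ Bad,
      ∑ x ∈ N, ((RF x).filter (fun ρ => ρ p.1 = p.2)).card := by
    calc N.card * F = ∑ x ∈ N, F := by rw [Finset.sum_const, smul_eq_mul]
      _ ≤ ∑ x ∈ N, ∑ p ∈ (Finset.univ : Finset T) ×ˢ Bad,
          ((RF x).filter (fun ρ => ρ p.1 = p.2)).card := Finset.sum_le_sum hrow
      _ = _ := Finset.sum_comm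
  have htotR : (N.card : ℝ) * F ≤ ((∑ y ∈ T, rho G v₀ y) * Bad.card) * F := by
    calc (N.card : ℝ) * F ≤ ((∑ p ∈ (Finset.univ : Finset T) ×ˢ Bad,
          ∑ x ∈ N, ((RF x).filter (fun ρ => ρ p.1 = p.2)).card : ℕ) : ℝ) := by
          exact_mod_cast htot
      _ = ∑ p ∈ (Finset.univ : Finset T) ×ˢ Bad,
          ((∑ x ∈ N, ((RF x).filter (fun ρ => ρ p.1 = p.2)).card : ℕ) : ℝ) := by
          push_cast; rfl
      _ ≤ ∑ p ∈ (Finset.univ : Finset T) ×ˢ Bad, (F : ℝ) * rho G v₀ p.1 :=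
          Finset.sum_le_sum fun p _ => hcol p
      _ = ((∑ y ∈ T, rho G v₀ y) * Bad.card) * F := by
          rw [Finset.sum_product]
          simp only [Finset.sum_const, nsmul_eq_mul]
          rw [← Finset.sum_coe_sort T (fun y => rho G v₀ y), Finset.sum_mul, Finset.sum_mul]
          refine Finset.sum_congr rfl fun y _ => ?_
          ring
  have hFR : (0 : ℝ) < F := by exact_mod_cast hFpos
  have := le_of_mul_le_mul_right htotR hFR
  linarith

end

end Pool.Agent.Helper33.Perc
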