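import Pool.Agent.Helper33.Perc.Cut

set_option autoImplicit false

/-!
Penalised cut potential on a non-amenable graph of bounded degree.
-/

namespace Pool.Agent.Helper33.Perc

open scoped Classical

noncomputable section

variable {V : Type}

/-- bounded degree graph with positive Cheeger constant `h` -/
structure Dat (V : Type) where
  G : SimpleGraph V
  hlf : ∀ v, (G.neighborSet v).Finite
  d : ℕ
  hd : ∀ v, (nb hlf v).card ≤ d
  h : ℝ
  hpos : 0 < h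
  hna : ∀ W : Finset V, h * W.card ≤ (bd hlf W).card

/-- `W` is not crossed by an edge of `M` -/
def Closed (M : Finset (Sym2 V)) (W : Finset V) : Prop := ∀ a ∈ W, ∀ b, s(a, b) ∈ M → b ∈ W

/-- endpoints -/
def ends (M : Finset (Sym2 V)) : Finset V := M.biUnion Sym2.toFinset

theorem mem_ends {M : Finset (Sym2 V)} {a : V} : a ∈ ends M ↔ ∃ e ∈ M, a ∈ e := by
  simp [ends]

theorem left_mem_ends {M : Finset (Sym2 V)} {a b : V} (h : s(a, b) ∈ M) : a ∈ ends M :=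
  mem_ends.2 ⟨_, h, by simp⟩

theorem right_mem_ends {M : Finset (Sym2 V)} {a b : V} (h : s(a, b) ∈ M) : b ∈ ends M :=
  mem_ends.2 ⟨_, h, by simp⟩

theorem card_ends_le (M : Finset (Sym2 V)) : (ends M).card ≤ 2 * M.card := by
  unfold ends
  calc _ ≤ ∑ e ∈ M, e.toFinset.card := Finset.card_biUnion_le
    _ ≤ ∑ e ∈ M, 2 := by
      refine Finset.sum_le_sum fun e _ => ?_
      rw [Sym2.card_toFinset]
      split_ifs <;> norm_num
    _ = 2 * M.card := by rw [Finset.sum_const, smul_eq_mul, mul_comm]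

theorem closed_insert_ends (M : Finset (Sym2 V)) (x : V) : Closed M (insert x (ends M)) :=
  fun _ _ _ hb => Finset.mem_insert_of_mem (right_mem_ends hb)

theorem Closed.mono {M M' : Finset (Sym2 V)} {W : Finset V} (h : Closed M' W) (hM : M ⊆ M') :
    Closed M W := fun a ha b hb => h a ha b (hM hb)

theorem Closed.union {M : Finset (Sym2 V)} {A C : Finset V} (hA : Closed M A)
    (hC : Closed M C) : Closed M (A ∪ C) := by
  intro a ha b hb
  rw [Finset.mem_union] at ha ⊢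
  rcases ha with ha | ha
  · exact Or.inl (hA a ha b hb)
  · exact Or.inr (hC a ha b hb)

theorem Closed.inter {M : Finset (Sym2 V)} {A C : Finset V} (hA : Closed M A)
    (hC : Closed M C) : Closed M (A ∩ C) := by
  intro a ha b hb
  rw [Finset.mem_inter] at ha ⊢
  exact ⟨hA a ha.1 b hb, hC a ha.2 b hb⟩

/-- admissible cuts -/
def Adm (v₀ : V) (M : Finset (Sym2 V)) (W : Finset V) : Prop := v₀ ∈ W ∧ Closed M W

theorem Adm.union {v₀ : V} {M : Finset (Sym2 V)} {A C : Finset V} (hA : Adm v₀ M A)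
    (hC : Adm v₀ M C) : Adm v₀ M (A ∪ C) := ⟨Finset.mem_union_left _ hA.1, hA.2.union hC.2⟩

theorem Adm.inter {v₀ : V} {M : Finset (Sym2 V)} {A C : Finset V} (hA : Adm v₀ M A)
    (hC : Adm v₀ M C) : Adm v₀ M (A ∩ C) := ⟨Finset.mem_inter.2 ⟨hA.1, hC.1⟩, hA.2.inter hC.2⟩

theorem Adm.mono {v₀ : V} {M M' : Finset (Sym2 V)} {W : Finset V} (h : Adm v₀ M' W)
    (hM : M ⊆ M') : Adm v₀ M W := ⟨h.1, h.2.mono hM⟩

theorem adm_insert_ends (v₀ : V) (M : Finset (Sym2 V)) : Adm v₀ M (insert v₀ (ends M)) :=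
  ⟨Finset.mem_insert_self _ _, closed_insert_ends M v₀⟩

/-- penalised cut -/
def gg (D : Dat V) (η : ℝ) (B : Finset (Sym2 V)) (W : Finset V) : ℝ :=
  (cw D.hlf B W : ℝ) - η * W.card

theorem gg_ge (D : Dat V) (η : ℝ) (B : Finset (Sym2 V)) (W : Finset V) :
    (D.h - η) * W.card - B.card ≤ gg D η B W := by
  unfold gg
  have h1 := D.hna W
  have h2 : ((bd D.hlf W).card : ℝ) ≤ cw D.hlf B W + B.card := by
    exact_mod_cast le_cw D.hlf B W
  nlinarith

theorem exists_min (D : Dat V) (v₀ : V) (η : ℝ) (hη0 : 0 ≤ η) (hη : η < D.h)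
    (M B : Finset (Sym2 V)) :
    ∃ W, Adm v₀ M W ∧ ∀ W', Adm v₀ M W' → gg D η B W ≤ gg D η B W' := by
  set W0 := insert v₀ (ends M) with hW0
  have hA0 : Adm v₀ M W0 := adm_insert_ends v₀ M
  set c0 := gg D η B W0 with hc0
  have hpos : 0 < D.h - η := by linarith
  set C := (c0 + B.card) / (D.h - η) with hC
  have hsize : ∀ W, gg D η B W ≤ c0 → (W.card : ℝ) ≤ C := by
    intro W hW
    rw [hC, le_div_iff₀ hpos]
    have := gg_ge D η B W
    linarith
  set n := ⌈C⌉₊ with hn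
  set m := ⌈c0 + η * C⌉₊ with hm
  set S := ((Finset.range (m + 1)) ×ˢ (Finset.range (n + 1))).filter
    (fun p => ∃ W, Adm v₀ M W ∧ cw D.hlf B W = p.1 ∧ W.card = p.2) with hS
  have hmem : ∀ W, Adm v₀ M W → gg D η B W ≤ c0 → (cw D.hlf B W, W.card) ∈ S := by
    intro W hW hle
    rw [hS, Finset.mem_filter, Finset.mem_product, Finset.mem_range, Finset.mem_range]
    have h1 := hsize W hle
    refine ⟨⟨?_, ?_⟩, W, hW, rfl, rfl⟩
    · have : (cw D.hlf B W : ℝ) ≤ c0 + η * C := by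
        unfold gg at hle
        nlinarith
      have h2 : cw D.hlf B W ≤ m := by
        have := this.trans (Nat.le_ceil _)
        exact_mod_cast this
      omega
    · have h2 : W.card ≤ n := by
        have := h1.trans (Nat.le_ceil _)
        exact_mod_cast this
      show W.card < n + 1
      omega
  have hne : S.Nonempty := ⟨_, hmem W0 hA0 le_rfl⟩
  obtain ⟨p, hp, hmin⟩ := S.exists_min_image (fun p => (p.1 : ℝ) - η * p.2) hne
  have hp' := hp
  rw [hS, Finset.mem_filter] at hp'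
  obtain ⟨_, W, hW, h1, h2⟩ := hp'
  refine ⟨W, hW, fun W' hW' => ?_⟩
  have hgW : gg D η B W = (p.1 : ℝ) - η * p.2 := by unfold gg; rw [h1, h2]
  rcases le_or_gt (gg D η B W') c0 with h | h
  · rw [hgW]; exact hmin _ (hmem W' hW' h)
  · have := hmin _ (hmem W0 hA0 le_rfl)
    rw [hgW]
    refine le_trans this ?_
    have : (cw D.hlf B W0 : ℝ) - η * W0.card = c0 := rfl
    linarith

/-- the potential -/
def Psi (D : Dat V) (v₀ : V) (η : ℝ) (M B : Finset (Sym2 V)) : ℝ :=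
  sInf (gg D η B '' {W | Adm v₀ M W})

theorem psi_exists (D : Dat V) (v₀ : V) (η : ℝ) (hη0 : 0 ≤ η) (hη : η < D.h)
    (M B : Finset (Sym2 V)) :
    ∃ W, Adm v₀ M W ∧ gg D η B W = Psi D v₀ η M B ∧
      ∀ W', Adm v₀ M W' → gg D η B W ≤ gg D η B W' := by
  obtain ⟨W, hW, hmin⟩ := exists_min D v₀ η hη0 hη M B
  refine ⟨W, hW, ?_, hmin⟩
  have : IsLeast (gg D η B '' {W | Adm v₀ M W}) (gg D η B W) := by
    refine ⟨⟨W, hW, rfl⟩, ?_⟩
    rintro _ ⟨W', hW', rfl⟩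
    exact hmin W' hW'
  exact this.csInf_eq.symm

theorem psi_le (D : Dat V) (v₀ : V) (η : ℝ) (hη0 : 0 ≤ η) (hη : η < D.h)
    {M B : Finset (Sym2 V)} {W : Finset V} (hW : Adm v₀ M W) :
    Psi D v₀ η M B ≤ gg D η B W := by
  obtain ⟨W1, _, h2, h3⟩ := psi_exists D v₀ η hη0 hη M B
  rw [← h2]; exact h3 W hW

theorem psi_mono (D : Dat V) (v₀ : V) (η : ℝ) (hη0 : 0 ≤ η) (hη : η < D.h)
    {M M' B : Finset (Sym2 V)} (hM : M ⊆ M') :
    Psi D v₀ η M B ≤ Psi D v₀ η M' B := by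
  obtain ⟨W1, h1, h2, _⟩ := psi_exists D v₀ η hη0 hη M' B
  rw [← h2]; exact psi_le D v₀ η hη0 hη (h1.mono hM)

theorem psi_union_right (D : Dat V) (v₀ : V) (η : ℝ) (hη0 : 0 ≤ η) (hη : η < D.h)
    (M B Q : Finset (Sym2 V)) :
    Psi D v₀ η M B - Q.card ≤ Psi D v₀ η M (B ∪ Q) := by
  obtain ⟨W1, h1, h2, _⟩ := psi_exists D v₀ η hη0 hη M (B ∪ Q)
  have h3 := psi_le D v₀ η hη0 hη (B := B) h1
  rw [← h2]
  have h4 : (cw D.hlf B W1 : ℝ) ≤ cw D.hlf (B ∪ Q) W1 + Q.card := by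
    exact_mod_cast le_cw_union D.hlf B Q W1
  unfold gg at h3 ⊢
  linarith

theorem psi_init (D : Dat V) (v₀ : V) (η : ℝ) (hη0 : 0 ≤ η) (hη : η < D.h)
    (M : Finset (Sym2 V)) : D.h - η ≤ Psi D v₀ η M ∅ := by
  obtain ⟨W1, h1, h2, _⟩ := psi_exists D v₀ η hη0 hη M ∅
  rw [← h2]
  have h3 := gg_ge D η ∅ W1
  have h4 : (1 : ℝ) ≤ W1.card := by
    exact_mod_cast Finset.card_pos.2 ⟨v₀, h1.1⟩
  simp only [Finset.card_empty, Nat.cast_zero, sub_zero] at h3
  nlinarith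

/-- the key two-parameter inequality -/
theorem two_param (D : Dat V) (v₀ : V) (η₁ η₂ : ℝ) (hη20 : 0 ≤ η₂) (hη2 : η₂ < D.h)
    {M B : Finset (Sym2 V)} {W₁ : Finset V} (hW₁ : Adm v₀ M W₁)
    (hmin : ∀ W', Adm v₀ M W' → gg D η₁ B W₁ ≤ gg D η₁ B W')
    {W' : Finset V} (hW' : Adm v₀ M W') :
    Psi D v₀ η₂ M B + (η₁ - η₂) * (W' \ W₁).card ≤ gg D η₂ B W' := by
  have h1 := hmin _ (hW'.union hW₁)
  have h2 := psi_le D v₀ η₂ hη20 hη2 (B := B) (hW'.inter hW₁)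
  have h3 := cw_submod D.hlf B W' W₁
  have h4 : ((W' ∪ W₁).card : ℝ) = W₁.card + (W' \ W₁).card := by
    rw [Finset.union_comm, ← Finset.union_sdiff_self_eq_union,
      Finset.card_union_of_disjoint Finset.disjoint_sdiff]
    push_cast; ring
  have h5 : (W'.card : ℝ) = (W' ∩ W₁).card + (W' \ W₁).card := by
    have := Finset.card_inter_add_card_sdiff W' W₁
    exact_mod_cast this.symm
  have h3' : (cw D.hlf B (W' ∪ W₁) : ℝ) + cw D.hlf B (W' ∩ W₁) ≤
      cw D.hlf B W' + cw D.hlf B W₁ := by exact_mod_cast h3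
  unfold gg at h1 h2 ⊢
  rw [h4] at h1
  rw [h5]
  nlinarith

theorem card_min_le (D : Dat V) (v₀ : V) (η₁ η₂ : ℝ) (hη20 : 0 ≤ η₂) (h12 : η₂ ≤ η₁)
    (hη1 : η₁ < D.h) {M B : Finset (Sym2 V)} {W₁ : Finset V}
    (hmin : ∀ W', Adm v₀ M W' → gg D η₁ B W₁ ≤ gg D η₁ B W') :
    (D.h - η₁) * W₁.card ≤ Psi D v₀ η₂ M B + B.card := by
  obtain ⟨W2, h1, h2, _⟩ := psi_exists D v₀ η₂ hη20 (lt_of_le_of_lt h12 hη1) M B
  have h3 := hmin _ h1
  have h4 := gg_ge D η₁ B W₁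
  have h5 : gg D η₁ B W2 ≤ gg D η₂ B W2 := by
    unfold gg
    have : (0 : ℝ) ≤ W2.card := Nat.cast_nonneg _
    nlinarith
  linarith

end

end Pool.Agent.Helper33.Perc
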