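import Pool.Agent.Helper33.Perc.Grow
import Pool.Agent.Helper33.Perc.Place
import Pool.Agent.Helper33.Perc.Block

set_option autoImplicit false

/-!
One substep of Maker: a bounded number of new edges raises the potential by almost `b` per edge.
-/

namespace Pool.Agent.Helper33.Perc

open scoped Classical
open Filter Topology

noncomputable section

variable {V : Type}

/-- bounded degree, positive Cheeger constant, connected, vertex transitive -/
structure Env (V : Type) extends Dat V where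
  conn : G.Connected
  trans : ∀ u v, ∃ φ : G ≃g G, φ u = v

/-- arbitrarily large blocks of value almost `b` per edge and bounded relative weights -/
def Freq (E : Env V) (b : ℝ) : Prop :=
  ∀ δ : ℝ, 0 < δ → ∃ R : ℝ, ∀ S0 : ℕ, ∃ s : ℕ, S0 ≤ s ∧ ∀ v₀ : V, ∃ Mb : Finset (Sym2 V),
    (↑Mb : Set (Sym2 V)) ⊆ E.G.edgeSet ∧ Mb.card ≤ s ∧
      (∀ W, Adm v₀ Mb W → (b - δ) * s ≤ (bd E.hlf W).card) ∧
      ∀ z ∈ insert v₀ (ends Mb), rho E.G v₀ z ≤ R

theorem Dat.d_pos [hne : Nonempty V] (D : Dat V) : 0 < D.d := by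
  obtain ⟨v₀⟩ := hne
  have hpos := D.hpos
  by_contra hcon
  have h1 := D.hna {v₀}
  have h2 := card_bd_le D.hlf D.d D.hd {v₀}
  have h3 : D.d = 0 := by omega
  rw [h3] at h2
  have h4 : (bd D.hlf {v₀}).card = 0 := by omega
  rw [h4] at h1
  simp at h1
  linarith

theorem exp_beats (ρ : ℝ) (hρ : 1 < ρ) (a c θ : ℝ) (hθ : 0 < θ) :
    ∃ S0 : ℕ, ∀ s : ℕ, S0 ≤ s → a * s + c < ρ ^ ⌊θ * s⌋₊ := by
  have h1 : Tendsto (fun n : ℕ => (n : ℝ) ^ 1 / ρ ^ n) atTop (𝓝 0) :=
    tendsto_pow_const_div_const_pow_of_one_lt 1 hρ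
  have h0 : Tendsto (fun n : ℕ => (n : ℝ) ^ 0 / ρ ^ n) atTop (𝓝 0) :=
    tendsto_pow_const_div_const_pow_of_one_lt 0 hρ
  have h2 := (h1.const_mul (|a| / θ)).add (h0.const_mul (|a| / θ + |c|))
  simp only [mul_zero, add_zero] at h2
  have h3 : ∀ᶠ n : ℕ in atTop, |a| / θ * ((n : ℝ) ^ 1 / ρ ^ n) +
      (|a| / θ + |c|) * ((n : ℝ) ^ 0 / ρ ^ n) < 1 := h2.eventually (gt_mem_nhds one_pos)
  have h4 : Tendsto (fun s : ℕ => ⌊θ * (s : ℝ)⌋₊) atTop atTop :=
    tendsto_nat_floor_atTop.comp (tendsto_natCast_atTop_atTop.const_mul_atTop hθ)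
  obtain ⟨S0, hS0⟩ := eventually_atTop.1 (h4.eventually h3)
  refine ⟨S0, fun s hs => ?_⟩
  have h5 := hS0 s hs
  set J := ⌊θ * (s : ℝ)⌋₊ with hJ
  have hρJ : 0 < ρ ^ J := by positivity
  have h6 : |a| / θ * J + (|a| / θ + |c|) < ρ ^ J := by
    have h7 : |a| / θ * ((J : ℝ) ^ 1 / ρ ^ J) + (|a| / θ + |c|) * ((J : ℝ) ^ 0 / ρ ^ J) =
        (|a| / θ * J + (|a| / θ + |c|)) / ρ ^ J := by
      rw [pow_one, pow_zero]; ring
    rw [h7, div_lt_one hρJ] at h5
    exact h5
  have h8 : θ * s < J + 1 := Nat.lt_floor_add_one _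
  have h9 : a * s ≤ |a| / θ * (J + 1) := by
    have : (s : ℝ) ≤ (J + 1) / θ := by rw [le_div_iff₀ hθ]; linarith
    calc a * s ≤ |a| * s := mul_le_mul_of_nonneg_right (le_abs_self a) (Nat.cast_nonneg s)
      _ ≤ |a| * ((J + 1) / θ) := mul_le_mul_of_nonneg_left this (abs_nonneg a)
      _ = |a| / θ * (J + 1) := by ring
  have h10 := le_abs_self c
  linarith

theorem substep [Nonempty V] (E : Env V) (b : ℝ) (hb0 : 0 < b) (hb : Freq E b)
    (ε : ℝ) (hε : 0 < ε) :
    ∃ η : ℝ, 0 < η ∧ η < E.h ∧ ∀ A : ℝ, 0 < A → ∃ L : ℕ, 1 ≤ L ∧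
      ∀ (v₀ : V) (M B : Finset (Sym2 V)),
        (M.card + B.card + 1 : ℝ) ≤ A * Psi E.toDat v₀ η M B →
        ∃ X : Finset (Sym2 V), (↑X : Set (Sym2 V)) ⊆ E.G.edgeSet ∧ Disjoint X (M ∪ B) ∧
          X.card ≤ L ∧ Psi E.toDat v₀ η M B + (b - ε) * L ≤ Psi E.toDat v₀ η (M ∪ X) B := by
  have hpos := E.hpos
  have hd0 : 0 < E.d := E.toDat.d_pos
  have hdR : (0 : ℝ) < E.d := by exact_mod_cast hd0
  set η₁ := E.h / 2 with hη₁
  set η := min (E.h / 4) (ε * E.h / (8 * (b + 1))) with hη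
  have hηpos : 0 < η := by
    rw [hη]; apply lt_min <;> positivity
  have hη4 : η ≤ E.h / 4 := min_le_left _ _
  have hη8 : η ≤ ε * E.h / (8 * (b + 1)) := min_le_right _ _
  have hηh : η < E.h := by linarith
  refine ⟨η, hηpos, hηh, fun A hA => ?_⟩
  -- ratio
  have hratio : η / E.h * b ≤ ε / 8 := by
    have h1 : η / E.h ≤ ε / (8 * (b + 1)) := by
      rw [div_le_iff₀ hpos]
      calc η ≤ ε * E.h / (8 * (b + 1)) := hη8
        _ = ε / (8 * (b + 1)) * E.h := by ring
    calc η / E.h * b ≤ ε / (8 * (b + 1)) * b := mul_le_mul_of_nonneg_right h1 hb0.le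
      _ = ε / 8 * (b / (b + 1)) := by field_simp
      _ ≤ ε / 8 * 1 := by
          apply mul_le_mul_of_nonneg_left _ (by positivity)
          rw [div_le_one (by positivity)]; linarith
      _ = ε / 8 := mul_one _
  set r := ⌈64 * E.d * b / (E.h * ε)⌉₊ + 1 with hr
  have hr0 : 0 < r := by omega
  have hrR : 64 * E.d * b / (E.h * ε) ≤ r := by
    have := Nat.le_ceil (64 * E.d * b / (E.h * ε))
    rw [hr]; push_cast; linarith
  set θ := ε / (8 * (b + 1)) with hθ
  have hθpos : 0 < θ := by rw [hθ]; positivity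
  set C := 2 * A + 2 * (1 + A) / E.h with hC
  have hCpos : 0 < C := by rw [hC]; positivity
  set ρ := 1 + η / E.d with hρ
  have hρ1 : 1 < ρ := by
    have : 0 < η / E.d := div_pos hηpos hdR
    rw [hρ]; linarith
  set TT : ℝ := ((E.d : ℝ) + 1) ^ r with hTT
  obtain ⟨R, hRb⟩ := hb (ε / 8) (by positivity)
  have hR1 : 1 ≤ R := by
    obtain ⟨s, _, hs⟩ := hRb 0
    obtain ⟨v⟩ := ‹Nonempty V›
    obtain ⟨Mb, _, _, _, h4⟩ := hs v
    have := h4 v (Finset.mem_insert_self _ _)
    rwa [rho_self E.hlf E.conn] at this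
  set C₃ : ℝ := R * (E.d : ℝ) ^ r with hC₃
  have hC₃pos : 0 < C₃ := by rw [hC₃]; positivity
  obtain ⟨S0, hS0⟩ := exp_beats ρ hρ1 (η * C * TT * C₃ * 2) (η * C * TT * C₃ + 1) θ hθpos
  obtain ⟨s, hs, hsb⟩ := hRb (max S0 1)
  have hsS : S0 ≤ s := le_trans (le_max_left _ _) hs
  have hs1 : 1 ≤ s := le_trans (le_max_right _ _) hs
  have hsR : (1 : ℝ) ≤ s := by exact_mod_cast hs1
  have hexp := hS0 s hsS
  set J := ⌊θ * (s : ℝ)⌋₊ with hJ
  have hJle : (J : ℝ) ≤ θ * s := Nat.floor_le (by positivity)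
  refine ⟨s + J, by omega, ?_⟩
  intro v₀ M B hMB
  obtain ⟨Mb, hMbE, hMbc, hMb, hMbR⟩ := hsb v₀
  set Ps := Psi E.toDat v₀ η M B with hPs
  have hPspos : 0 < Ps := by
    have h1 : (0 : ℝ) < A * Ps := by
      have : (0 : ℝ) ≤ (M.card : ℝ) + B.card := by positivity
      linarith
    exact (mul_pos_iff_of_pos_left hA).1 h1
  obtain ⟨W₁, hW₁, _, hmin⟩ := psi_exists E.toDat v₀ η₁ (by positivity)
    (by show E.h / 2 < E.h; linarith) M B
  have hη12 : η ≤ η₁ := by rw [hη₁]; linarith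
  have hη1h : η₁ < E.h := by rw [hη₁]; linarith
  have hW₁c := card_min_le E.toDat v₀ η₁ η hηpos.le hη12 hη1h hmin
  obtain ⟨N, hNA, hNR, hNc⟩ := grow E.toDat v₀ η hηpos hηh hd0 M B J
  set T := nhk E.hlf r (insert v₀ (ends Mb)) with hT
  set Bad := ends M ∪ ends B ∪ W₁ ∪ {v₀} with hBad
  have hTc : (T.card : ℝ) ≤ TT * (2 * s + 1) := by
    have h1 := card_nhk_le E.hlf E.d E.hd (insert v₀ (ends Mb)) r
    have h2 : (insert v₀ (ends Mb)).card ≤ 2 * s + 1 := by
      have := card_ends_le Mb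
      have h3 := Finset.card_insert_le v₀ (ends Mb)
      omega
    have h3 : T.card ≤ (E.d + 1) ^ r * (2 * s + 1) := h1.trans (Nat.mul_le_mul_left _ h2)
    have h4 : (T.card : ℝ) ≤ (((E.d + 1) ^ r * (2 * s + 1) : ℕ) : ℝ) := by exact_mod_cast h3
    push_cast at h4
    exact h4
  have hTsum : ∑ y ∈ T, rho E.G v₀ y ≤ TT * (2 * s + 1) * C₃ := by
    calc ∑ y ∈ T, rho E.G v₀ y ≤ ∑ y ∈ T, C₃ := Finset.sum_le_sum
          (rho_nhk_le E.hlf E.conn E.d hd0 E.hd v₀ R _ hMbR r)
      _ = T.card * C₃ := by rw [Finset.sum_const, nsmul_eq_mul]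
      _ ≤ TT * (2 * s + 1) * C₃ := mul_le_mul_of_nonneg_right hTc hC₃pos.le
  have hBadc : (Bad.card : ℝ) ≤ C * Ps := by
    have h1 : Bad.card ≤ 2 * M.card + 2 * B.card + W₁.card + 1 := by
      have h2 := Finset.card_union_le (ends M ∪ ends B ∪ W₁) {v₀}
      have h3 := Finset.card_union_le (ends M ∪ ends B) W₁
      have h4 := Finset.card_union_le (ends M) (ends B)
      have h5 := card_ends_le M
      have h6 := card_ends_le B
      have h7 : ({v₀} : Finset V).card = 1 := Finset.card_singleton v₀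
      rw [hBad]
      omega
    have h2 : (Bad.card : ℝ) ≤ 2 * M.card + 2 * B.card + W₁.card + 1 := by exact_mod_cast h1
    have h3 : (B.card : ℝ) ≤ A * Ps := by
      have : (0 : ℝ) ≤ M.card := Nat.cast_nonneg _
      linarith
    have h4 : (W₁.card : ℝ) ≤ 2 * (1 + A) / E.h * Ps := by
      have h5 : (E.h - η₁) * W₁.card ≤ Ps + A * Ps := by linarith
      have h6 : E.h / 2 * W₁.card ≤ (1 + A) * Ps := by
        rw [hη₁] at h5; linarith
      calc (W₁.card : ℝ) = 2 / E.h * (E.h / 2 * W₁.card) := by field_simp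
        _ ≤ 2 / E.h * ((1 + A) * Ps) := mul_le_mul_of_nonneg_left h6 (by positivity)
        _ = 2 * (1 + A) / E.h * Ps := by ring
    have h6 : C * Ps = 2 * (A * Ps) + 2 * (1 + A) / E.h * Ps := by rw [hC]; ring
    rw [h6]
    linarith
  have hcard : (∑ y ∈ T, rho E.G v₀ y) * Bad.card < N.card := by
    have hTTpos : 0 < TT := by rw [hTT]; positivity
    calc (∑ y ∈ T, rho E.G v₀ y) * Bad.card ≤ (TT * (2 * s + 1) * C₃) * (C * Ps) := by
          apply mul_le_mul hTsum hBadc (Nat.cast_nonneg _) (by positivity)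
      _ = Ps / η * (η * C * TT * C₃ * 2 * s + (η * C * TT * C₃ + 1) - 1) := by
          field_simp; ring
      _ < Ps / η * (ρ ^ J - 1) := by
          apply mul_lt_mul_of_pos_left _ (by positivity)
          linarith
      _ ≤ N.card := hNc
  obtain ⟨φ, hφN, hφT⟩ := placement E.hlf E.conn E.trans v₀ T Bad N hcard
  obtain ⟨P, hPc, hPE, hPd, hPW⟩ := hNR _ hφN
  set X := Mb.image (Sym2.map φ) ∪ P with hX
  refine ⟨X, ?_, ?_, ?_, ?_⟩
  · intro e he
    rw [Finset.mem_coe, hX, Finset.mem_union] at he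
    rcases he with he | he
    · rw [Finset.mem_image] at he
      obtain ⟨e', he', rfl⟩ := he
      have h1 := hMbE he'
      induction e' using Sym2.ind with
      | _ x y =>
        rw [SimpleGraph.mem_edgeSet] at h1
        rw [Sym2.map_mk, SimpleGraph.mem_edgeSet]
        exact φ.map_rel_iff.2 h1
    · exact hPE he
  · rw [hX, Finset.disjoint_union_left]
    refine ⟨?_, hPd⟩
    rw [Finset.disjoint_left]
    intro e he heMB
    rw [Finset.mem_image] at he
    obtain ⟨e', he', rfl⟩ := he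
    induction e' using Sym2.ind with
    | _ x y =>
      rw [Sym2.map_mk] at heMB
      have hxT : x ∈ T := by
        rw [hT]
        exact nhk_mono E.hlf _ (Nat.zero_le r) (by
          simp only [nhk]
          exact Finset.mem_insert_of_mem (left_mem_ends he'))
      have hxB := hφT x hxT
      apply hxB
      rw [hBad]
      rw [Finset.mem_union] at heMB
      simp only [Finset.mem_union]
      rcases heMB with h | h
      · exact Or.inl (Or.inl (Or.inl (left_mem_ends h)))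
      · exact Or.inl (Or.inl (Or.inr (left_mem_ends h)))
  · have h1 : (Mb.image (Sym2.map φ)).card ≤ s :=
      Finset.card_image_le.trans hMbc
    have h2 := Finset.card_union_le (Mb.image (Sym2.map φ)) P
    rw [hX]; omega
  · obtain ⟨W', hW', hW'g, _⟩ := psi_exists E.toDat v₀ η hηpos.le hηh (M ∪ X) B
    have hφW : φ v₀ ∈ W' := by
      apply hPW W' hW'.1
      apply hW'.2.mono
      apply Finset.union_subset_union_right
      rw [hX]; exact Finset.subset_union_right
    set c := ⌈(b - ε / 8) * (s : ℝ)⌉₊ with hc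
    set K := 4 * b * s / E.h with hK
    have hgain := block_gain E.toDat v₀ η₁ η hηpos.le hη12 hη1h hW₁ hmin Mb c
      (fun W hW => by rw [hc]; exact Nat.ceil_le.2 (hMb W hW)) φ r hr0 hφT X
      (by rw [hX]; exact Finset.subset_union_left) K hW' hφW
    rw [← hW'g]
    refine le_trans ?_ hgain
    rw [← hPs]
    have hcR : (b - ε / 8) * s ≤ (c : ℝ) := Nat.le_ceil _
    have hsum : (b - ε) * ((s + J : ℕ) : ℝ) ≤ (b - 7 * ε / 8) * s := by
      push_cast
      have h1 : (b - ε) * (J : ℝ) ≤ b * J := by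
        have : (0 : ℝ) ≤ ε * J := by positivity
        rw [sub_mul]; linarith
      have h2 : b * (J : ℝ) ≤ ε / 8 * s := by
        calc b * (J : ℝ) ≤ b * (θ * s) := mul_le_mul_of_nonneg_left hJle hb0.le
          _ = ε / 8 * (b / (b + 1)) * s := by rw [hθ]; field_simp
          _ ≤ ε / 8 * 1 * s := by
              apply mul_le_mul_of_nonneg_right _ (by positivity)
              apply mul_le_mul_of_nonneg_left _ (by positivity)
              rw [div_le_one (by positivity)]; linarith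
          _ = ε / 8 * s := by ring
      linarith
    have hmin1 : (b - 7 * ε / 8) * s ≤ (η₁ - η) * K := by
      have h1 : E.h / 4 ≤ η₁ - η := by rw [hη₁]; linarith
      have hK0 : 0 ≤ K := by rw [hK]; positivity
      calc (b - 7 * ε / 8) * s ≤ b * s :=
            mul_le_mul_of_nonneg_right (by linarith) (Nat.cast_nonneg s)
        _ = E.h / 4 * K := by rw [hK]; field_simp
        _ ≤ (η₁ - η) * K := mul_le_mul_of_nonneg_right h1 hK0
    have hmin2 : (b - 7 * ε / 8) * s ≤ (1 - η / E.h) * c - 2 * E.d * (K / r) := by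
      have hrpos : (0 : ℝ) < r := by exact_mod_cast hr0
      have h1 : 2 * E.d * (K / r) ≤ ε / 8 * s := by
        rw [hK]
        have h2 : 64 * E.d * b ≤ r * (E.h * ε) := by
          rw [div_le_iff₀ (by positivity)] at hrR
          exact hrR
        have h3 : 2 * (E.d : ℝ) * (4 * b * s / E.h / r) = (64 * E.d * b) * s / (8 * (E.h * r)) := by
          field_simp; ring
        rw [h3, div_le_iff₀ (by positivity)]
        calc (64 * E.d * b) * (s : ℝ) ≤ (r * (E.h * ε)) * s :=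
              mul_le_mul_of_nonneg_right h2 (by positivity)
          _ = ε / 8 * s * (8 * (E.h * r)) := by ring
      have hq : η / E.h ≤ 1 := by rw [div_le_one hpos]; linarith
      have hq0 : 0 ≤ η / E.h := by positivity
      have h4 : (1 - η / E.h) * ((b - ε / 8) * s) ≤ (1 - η / E.h) * c :=
        mul_le_mul_of_nonneg_left hcR (by linarith)
      have h5 : (1 - η / E.h) * ((b - ε / 8) * s) ≥ (b - ε / 8) * s - ε / 8 * s := by
        have h6 : η / E.h * ((b - ε / 8) * s) ≤ (η / E.h * b) * s := by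
          have : 0 ≤ η / E.h * (ε / 8 * s) := by positivity
          linarith
        have h7 : (η / E.h * b) * s ≤ ε / 8 * s := mul_le_mul_of_nonneg_right hratio (by positivity)
        linarith
      have h8 : 0 ≤ ε * s := by positivity
      linarith
    have := le_min hmin1 hmin2
    linarith

end

end Pool.Agent.Helper33.Perc
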